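import Pool.Agent.K4H17.DX.Model

set_option maxHeartbeats 400000
set_option linter.unusedSectionVars false

namespace K4H17.DX

open MvPolynomial

section Poly

variable {k : Type*} [Field k] {κ : Type*} (Ω : κ → MvPolynomial (Fin 3) k) (ξ : κ → k)

/-- the gradient of the `l`-th potential -/
noncomputable def W (l : κ) (m : Fin 3) : MvPolynomial (κ × Fin 3) k := inc l (pderiv m (Ω l))

/-- The bracket in the `l`-th block. -/
noncomputable def brR (l : κ) (f g : MvPolynomial (κ × Fin 3) k) : MvPolynomial (κ × Fin 3) k :=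
  pderiv (l, 0) f * (pderiv (l, 1) g * W Ω l 2 - pderiv (l, 2) g * W Ω l 1)
  + pderiv (l, 1) f * (pderiv (l, 2) g * W Ω l 0 - pderiv (l, 0) g * W Ω l 2)
  + pderiv (l, 2) f * (pderiv (l, 0) g * W Ω l 1 - pderiv (l, 1) g * W Ω l 0)

lemma brR_swap (l : κ) (f g : MvPolynomial (κ × Fin 3) k) : brR Ω l f g = - brR Ω l g f := by
  unfold brR; ring

lemma brR_add_left (l : κ) (f f' g : MvPolynomial (κ × Fin 3) k) :
    brR Ω l (f + f') g = brR Ω l f g + brR Ω l f' g := by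
  unfold brR; simp only [map_add]; ring

lemma brR_smul_left (l : κ) (c : k) (f g : MvPolynomial (κ × Fin 3) k) :
    brR Ω l (c • f) g = c • brR Ω l f g := by
  unfold brR
  simp only [Derivation.map_smul, smul_add, smul_mul_assoc]

lemma brR_mul_left (l : κ) (f f' g : MvPolynomial (κ × Fin 3) k) :
    brR Ω l (f * f') g = f * brR Ω l f' g + f' * brR Ω l f g := by
  unfold brR; simp only [Derivation.leibniz, smul_eq_mul]; ring

lemma plucker (l : κ) (p q f g : MvPolynomial (κ × Fin 3) k) :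
    brR Ω l p q * brR Ω l f g = brR Ω l p f * brR Ω l q g - brR Ω l q f * brR Ω l p g := by
  unfold brR; ring

lemma pderiv_inc_self (l : κ) (m : Fin 3) (p : MvPolynomial (Fin 3) k) :
    pderiv (l, m) (inc l p) = inc l (pderiv m p) := by
  unfold inc
  exact pderiv_rename (fun a b h => by simpa using h) m p

lemma pderiv_inc_ne {l l' : κ} (h : l ≠ l') (m : Fin 3) (p : MvPolynomial (Fin 3) k) :
    pderiv (l, m) (inc l' p) = 0 := by
  classical
  refine pderiv_eq_zero_of_notMem_vars ?_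
  intro hmem
  have := vars_rename (fun m => (l', m)) p hmem
  simp only [Finset.mem_image] at this
  obtain ⟨a, _, ha⟩ := this
  exact h (by simpa using (congrArg Prod.fst ha).symm)

lemma brR_JJ_left (l : κ) {f : MvPolynomial (κ × Fin 3) k} (hf : f ∈ JJ Ω ξ)
    (g : MvPolynomial (κ × Fin 3) k) : brR Ω l f g ∈ JJ Ω ξ := by
  rw [JJ] at hf
  induction hf using Submodule.span_induction with
  | mem x hx =>
    obtain ⟨l', rfl⟩ := hx
    have h0 : brR Ω l (inc l' (Ω l') - C (ξ l')) g = 0 := by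
      by_cases h : l = l'
      · subst h
        unfold brR
        simp only [map_sub, pderiv_inc_self, pderiv_C, sub_zero]
        unfold W
        ring
      · unfold brR
        simp only [map_sub, pderiv_inc_ne h, pderiv_C, sub_zero]
        ring
    simp only [h0, Ideal.zero_mem]
  | zero =>
    have : brR Ω l 0 g = 0 := by unfold brR; simp
    rw [this]; exact Ideal.zero_mem _
  | add x y _ _ hx hy => rw [brR_add_left]; exact Ideal.add_mem _ hx hy
  | smul a x hx' hx =>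
    rw [smul_eq_mul, brR_mul_left]
    exact Ideal.add_mem _ (Ideal.mul_mem_left _ _ hx) (Ideal.mul_mem_right _ _ hx')

lemma brR_JJ_right (l : κ) {g : MvPolynomial (κ × Fin 3) k} (hg : g ∈ JJ Ω ξ)
    (f : MvPolynomial (κ × Fin 3) k) : brR Ω l f g ∈ JJ Ω ξ := by
  rw [brR_swap]
  exact neg_mem (brR_JJ_left Ω ξ l hg f)

lemma brR_X_left (l : κ) (m : Fin 3) (g : MvPolynomial (κ × Fin 3) k) :
    brR Ω l (X (l, m)) g = pderiv (l, m + 1) g * W Ω l (m + 2) - pderiv (l, m + 2) g * W Ω l (m + 1)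
    := by
  classical
  unfold brR
  fin_cases m <;> simp [pderiv_X, Pi.single_apply] <;> rfl

lemma brR_X_ne {l l' : κ} (h : l' ≠ l) (m : Fin 3) (g : MvPolynomial (κ × Fin 3) k) :
    brR Ω l (X (l', m)) g = 0 := by
  classical
  unfold brR
  simp [pderiv_X, Pi.single_apply, h.symm, Ne.symm h]

lemma brR_X_X (l : κ) (m : Fin 3) :
    brR Ω l (X (l, m + 1)) (X (l, m + 2)) = W Ω l m := by
  classical
  rw [brR_X_left]
  fin_cases m <;> simp [pderiv_X, Pi.single_apply]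

variable [Fintype κ] [DecidableEq κ]

lemma brR_FR_ne {l j : κ} (h : l ≠ j) {a b : ℕ} {f g : MvPolynomial (κ × Fin 3) k}
    (hf : f ∈ FR k j a) (hg : g ∈ FR k j b) : brR Ω l f g ∈ FR k j (a + b) := by
  have hW : ∀ m, W Ω l m ∈ FR k j 0 := fun m => inc_mem_FR_ne h _
  have hd : ∀ m m' m'', pderiv (l, m) f * (pderiv (l, m') g * W Ω l m'') ∈ FR k j (a + b) := by
    intro m m' m''
    exact FR_mul (FR_pderiv_ne h m hf) (FR_mul (FR_pderiv_ne h m' hg) (hW m''))
  unfold brR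
  simp only [mul_sub]
  exact add_mem (add_mem (sub_mem (hd _ _ _) (hd _ _ _)) (sub_mem (hd _ _ _) (hd _ _ _)))
    (sub_mem (hd _ _ _) (hd _ _ _))

lemma brR_FR_self {j : κ} {e b : ℕ} (he : 2 ≤ e) (hΩ : (Ω j).IsHomogeneous e) (m : Fin 3)
    {g : MvPolynomial (κ × Fin 3) k} (hg : g ∈ FR k j b) :
    brR Ω j (X (j, m)) g ∈ FR k j (b + (e - 2)) := by
  rw [brR_X_left]
  rcases Nat.eq_zero_or_pos b with hb | hb
  · subst hb
    rw [FR_pderiv_zero _ hg, FR_pderiv_zero _ hg]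
    simp
  · have hW : ∀ m, W Ω j m ∈ FR k j (e - 1) := fun m => inc_mem_FR_self hΩ.pderiv.totalDegree_le
    have hd : ∀ m m', pderiv (j, m) g * W Ω j m' ∈ FR k j (b + (e - 2)) := by
      intro m m'
      refine FR_mono ?_ (FR_mul (FR_pderiv_self m hg) (hW m'))
      omega
    exact sub_mem (hd _ _) (hd _ _)

end Poly

section Quot

variable {k : Type*} [Field k] {κ : Type*} (Ω : κ → MvPolynomial (Fin 3) k) (ξ : κ → k)

/-- The bracket in the `l`-th block on the model. -/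
noncomputable def brl (l : κ) (a b : PP Ω ξ) : PP Ω ξ :=
  Ideal.Quotient.mk _ (brR Ω l (Function.surjInv Ideal.Quotient.mk_surjective a)
    (Function.surjInv Ideal.Quotient.mk_surjective b))

lemma brl_mk (l : κ) (f g : MvPolynomial (κ × Fin 3) k) :
    brl Ω ξ l (Ideal.Quotient.mk _ f) (Ideal.Quotient.mk _ g)
      = Ideal.Quotient.mk _ (brR Ω l f g) := by
  unfold brl
  set f' := Function.surjInv Ideal.Quotient.mk_surjective (Ideal.Quotient.mk (JJ Ω ξ) f) with hf'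
  set g' := Function.surjInv Ideal.Quotient.mk_surjective (Ideal.Quotient.mk (JJ Ω ξ) g) with hg'
  have h1 : f' - f ∈ JJ Ω ξ := by
    rw [← Ideal.Quotient.mk_eq_mk_iff_sub_mem]
    exact Function.surjInv_eq Ideal.Quotient.mk_surjective _
  have h2 : g' - g ∈ JJ Ω ξ := by
    rw [← Ideal.Quotient.mk_eq_mk_iff_sub_mem]
    exact Function.surjInv_eq Ideal.Quotient.mk_surjective _
  rw [Ideal.Quotient.mk_eq_mk_iff_sub_mem]
  have h3 : brR Ω l f' g' - brR Ω l f g = brR Ω l (f' - f) g' + brR Ω l f (g' - g) := by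
    unfold brR; simp only [map_sub]; ring
  rw [h3]
  exact add_mem (brR_JJ_left Ω ξ l h1 _) (brR_JJ_right Ω ξ l h2 _)

/-- The Poisson bracket on the model. -/
noncomputable def br [Fintype κ] (a b : PP Ω ξ) : PP Ω ξ := ∑ l, brl Ω ξ l a b

/-- the generators of the model -/
noncomputable def gx (l : κ) (m : Fin 3) : PP Ω ξ := Ideal.Quotient.mk _ (X (l, m))

/-- the gradient on the model -/
noncomputable def gW (l : κ) (m : Fin 3) : PP Ω ξ := Ideal.Quotient.mk _ (W Ω l m)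

lemma brl_plucker (l : κ) (p q f g : PP Ω ξ) :
    brl Ω ξ l p q * brl Ω ξ l f g
      = brl Ω ξ l p f * brl Ω ξ l q g - brl Ω ξ l q f * brl Ω ξ l p g := by
  obtain ⟨p, rfl⟩ := Ideal.Quotient.mk_surjective p
  obtain ⟨q, rfl⟩ := Ideal.Quotient.mk_surjective q
  obtain ⟨f, rfl⟩ := Ideal.Quotient.mk_surjective f
  obtain ⟨g, rfl⟩ := Ideal.Quotient.mk_surjective g
  simp only [brl_mk]
  rw [← map_mul, plucker, map_sub, map_mul, map_mul]

lemma brl_swap (l : κ) (f g : PP Ω ξ) : brl Ω ξ l f g = - brl Ω ξ l g f := by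
  obtain ⟨f, rfl⟩ := Ideal.Quotient.mk_surjective f
  obtain ⟨g, rfl⟩ := Ideal.Quotient.mk_surjective g
  rw [brl_mk, brl_mk, brR_swap, map_neg]

lemma brl_self (l : κ) (f : PP Ω ξ) : brl Ω ξ l f f = 0 := by
  obtain ⟨f, rfl⟩ := Ideal.Quotient.mk_surjective f
  rw [brl_mk]
  have : brR Ω l f f = 0 := by unfold brR; ring
  rw [this, map_zero]

lemma brl_gx_gx (l : κ) (m : Fin 3) :
    brl Ω ξ l (gx Ω ξ l (m + 1)) (gx Ω ξ l (m + 2)) = gW Ω ξ l m := by
  rw [gx, gx, brl_mk, brR_X_X]; rfl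

lemma brl_gx_ne {l l' : κ} (h : l' ≠ l) (m : Fin 3) (g : PP Ω ξ) :
    brl Ω ξ l (gx Ω ξ l' m) g = 0 := by
  obtain ⟨g, rfl⟩ := Ideal.Quotient.mk_surjective g
  rw [gx, brl_mk, brR_X_ne Ω h, map_zero]

variable [Fintype κ]

lemma br_swap (f g : PP Ω ξ) : br Ω ξ f g = - br Ω ξ g f := by
  unfold br
  rw [← Finset.sum_neg_distrib]
  exact Finset.sum_congr rfl fun l _ => brl_swap Ω ξ l f g

lemma br_self (f : PP Ω ξ) : br Ω ξ f f = 0 := by
  unfold br
  exact Finset.sum_eq_zero fun l _ => brl_self Ω ξ l f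

variable [DecidableEq κ]

lemma br_gx_gx (i : κ) (m : Fin 3) :
    br Ω ξ (gx Ω ξ i (m + 1)) (gx Ω ξ i (m + 2)) = gW Ω ξ i m := by
  unfold br
  rw [Finset.sum_eq_single i, brl_gx_gx]
  · intro l _ hl
    exact brl_gx_ne Ω ξ hl.symm _ _
  · simp

lemma br_gx_ne {i i' : κ} (h : i ≠ i') (m m' : Fin 3) :
    br Ω ξ (gx Ω ξ i m) (gx Ω ξ i' m') = 0 := by
  unfold br
  refine Finset.sum_eq_zero fun l _ => ?_
  by_cases hl : i = l
  · rw [brl_swap, brl_gx_ne Ω ξ (by rintro rfl; exact h hl), neg_zero]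
  · exact brl_gx_ne Ω ξ hl _ _

variable {Ω ξ}

lemma brl_FP_ne {l j : κ} (h : l ≠ j) {a b : ℕ} {f g : PP Ω ξ}
    (hf : f ∈ FP Ω ξ j a) (hg : g ∈ FP Ω ξ j b) : brl Ω ξ l f g ∈ FP Ω ξ j (a + b) := by
  obtain ⟨f', hf', rfl⟩ := mem_FP.mp hf
  obtain ⟨g', hg', rfl⟩ := mem_FP.mp hg
  rw [brl_mk]
  exact mk_mem_FP (brR_FR_ne Ω h hf' hg')

lemma brl_FP_self {j : κ} {e b : ℕ} (he : 2 ≤ e) (hΩ : (Ω j).IsHomogeneous e) (m : Fin 3)
    {g : PP Ω ξ} (hg : g ∈ FP Ω ξ j b) :
    brl Ω ξ j (gx Ω ξ j m) g ∈ FP Ω ξ j (b + (e - 2)) := by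
  obtain ⟨g', hg', rfl⟩ := mem_FP.mp hg
  rw [gx, brl_mk]
  exact mk_mem_FP (brR_FR_self Ω he hΩ m hg')

/-- Evaluation of a homogeneous polynomial at elements of bounded degree. -/
lemma aeval_FP {j : κ} {c N : ℕ} {x : Fin 3 → PP Ω ξ} (hx : ∀ m, x m ∈ FP Ω ξ j c)
    {q : MvPolynomial (Fin 3) k} (hq : q.IsHomogeneous N) : aeval x q ∈ FP Ω ξ j (N * c) := by
  rw [q.as_sum, map_sum]
  refine Submodule.sum_mem _ fun s hs => ?_
  have h0 : monomial s (coeff s q) = coeff s q • monomial s (1 : k) := by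
    rw [smul_monomial, smul_eq_mul, mul_one]
  rw [h0, map_smul]
  refine Submodule.smul_mem _ _ ?_
  have h4 := aeval_monomial_mem (k := k) (fun n (a : PP Ω ξ) => a ∈ FP Ω ξ j n) (FP_one j)
    (fun m n a b ha hb => FP_mul ha hb) x (fun _ => c) hx s
  refine FP_mono (le_of_eq ?_) h4
  have h5 : N = ∑ i ∈ s.support, s i := hq.degree_eq_sum_deg_support hs
  rw [h5, Finset.sum_mul]
  rfl

/-- Leibniz bound for determinants. -/
lemma det_FP {n : Type*} [Fintype n] [DecidableEq n] {j : κ} (N : Matrix n n (PP Ω ξ))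
    (α β : n → ℕ) (h : ∀ r s, N r s ∈ FP Ω ξ j (α r + β s)) :
    N.det ∈ FP Ω ξ j (∑ r, α r + ∑ s, β s) := by
  classical
  have hprod : ∀ (t : Finset n) (f : n → PP Ω ξ) (w : n → ℕ), (∀ i, f i ∈ FP Ω ξ j (w i)) →
      ∏ i ∈ t, f i ∈ FP Ω ξ j (∑ i ∈ t, w i) := by
    intro t f w hf
    induction t using Finset.induction_on with
    | empty => simpa using FP_one j
    | insert a t ha ih =>
      rw [Finset.prod_insert ha, Finset.sum_insert ha]
      exact FP_mul (hf a) ih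
  rw [Matrix.det_apply]
  refine Submodule.sum_mem _ fun σ _ => ?_
  have h1 : ∏ i, N (σ i) i ∈ FP Ω ξ j (∑ r, α r + ∑ s, β s) := by
    have h2 := hprod Finset.univ (fun i => N (σ i) i) (fun i => α (σ i) + β i) (fun i => h _ _)
    rw [Finset.sum_add_distrib, Equiv.sum_comp σ α] at h2
    exact h2
  rcases Int.units_eq_one_or (Equiv.Perm.sign σ) with hs | hs
  · rw [hs, one_smul]; exact h1
  · rw [hs, Units.neg_smul, one_smul]; exact neg_mem h1

end Quot

end K4H17.DX
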