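import Pool.Agent.K4H17.DX.Irr

set_option maxHeartbeats 400000

namespace K4H17.DX

open MvPolynomial

section Basic

variable {B σ : Type*} [CommRing B]

lemma totalDegree_le_of_hc {f : MvPolynomial σ B} {n : ℕ}
    (h : ∀ m, n < m → homogeneousComponent m f = 0) : f.totalDegree ≤ n := by
  rw [← sum_homogeneousComponent f]
  refine totalDegree_finsetSum_le fun i _ => ?_
  by_cases hi : n < i
  · rw [h i hi]; simp
  · exact (homogeneousComponent_isHomogeneous i f).totalDegree_le.trans (by omega)

lemma totalDegree_le_pred {f : MvPolynomial σ B} {n : ℕ} (hf : f.totalDegree ≤ n + 1)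
    (h : homogeneousComponent (n + 1) f = 0) : f.totalDegree ≤ n := by
  refine totalDegree_le_of_hc fun m hm => ?_
  rcases Nat.lt_or_ge (n + 1) m with h1 | h1
  · exact homogeneousComponent_eq_zero m f (by omega)
  · obtain rfl : m = n + 1 := by omega
    exact h

lemma eq_zero_of_totalDegree_zero {f : MvPolynomial σ B} (hf : f.totalDegree ≤ 0)
    (h : homogeneousComponent 0 f = 0) : f = 0 := by
  rw [← sum_homogeneousComponent f]
  refine Finset.sum_eq_zero fun i hi => ?_
  have : i = 0 := by
    rw [Finset.mem_range] at hi; omega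
  rw [this, h]

lemma hc_totalDegree_ne_zero {f : MvPolynomial σ B} (hf : f ≠ 0) :
    homogeneousComponent f.totalDegree f ≠ 0 := by
  intro h
  rcases Nat.eq_zero_or_pos f.totalDegree with h0 | h0
  · rw [h0] at h
    exact hf (eq_zero_of_totalDegree_zero h0.le h)
  · obtain ⟨n, hn⟩ : ∃ n, f.totalDegree = n + 1 := ⟨f.totalDegree - 1, by omega⟩
    rw [hn] at h
    have := totalDegree_le_pred hn.le h
    omega

lemma hc_mul_top {f g : MvPolynomial σ B} {a b : ℕ} (hf : f.totalDegree ≤ a)
    (hg : g.totalDegree ≤ b) :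
    homogeneousComponent (a + b) (f * g)
      = homogeneousComponent a f * homogeneousComponent b g := by
  classical
  conv_lhs => rw [← sum_homogeneousComponent f, Finset.sum_mul, map_sum]
  have h1 : ∀ i ∈ Finset.range (f.totalDegree + 1),
      homogeneousComponent (a + b) (homogeneousComponent i f * g)
        = if i = a then homogeneousComponent a f * homogeneousComponent b g else 0 := by
    intro i hi
    rw [Finset.mem_range] at hi
    have h2 := hc_mul (homogeneousComponent_isHomogeneous i f) g (a + b - i)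
    rw [show i + (a + b - i) = a + b by omega] at h2
    rw [h2]
    by_cases hia : i = a
    · subst hia
      rw [if_pos rfl, show i + b - i = b by omega]
    · rw [if_neg hia, homogeneousComponent_eq_zero _ g (by omega), mul_zero]
  rw [Finset.sum_congr rfl h1, Finset.sum_ite_eq']
  split_ifs with hn
  · rfl
  · rw [homogeneousComponent_eq_zero a f, zero_mul]
    simpa using hn

end Basic

section Quot

variable {B σ : Type*} [CommRing B] [IsDomain B] {ω : MvPolynomial σ B} {e : ℕ}

/-- A nonzero multiple of `ω - ξ` has large degree. -/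
lemma le_totalDegree_of_mul (he : 1 ≤ e) (hω : ω.IsHomogeneous e) (hω0 : ω ≠ 0) (ξ : B)
    {s : MvPolynomial σ B} (hs : s ≠ 0) :
    s.totalDegree + e ≤ ((ω - C ξ) * s).totalDegree := by
  by_contra hcon
  push Not at hcon
  have h1 : homogeneousComponent (s.totalDegree + e) ((ω - C ξ) * s) = 0 :=
    homogeneousComponent_eq_zero _ _ hcon
  rw [sub_mul, map_sub, add_comm, hc_mul hω, homogeneousComponent_C_mul,
    homogeneousComponent_eq_zero (e + s.totalDegree) s (by omega), mul_zero, sub_zero] at h1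
  exact mul_ne_zero hω0 (hc_totalDegree_ne_zero hs) h1

variable (ω) in
/-- The quotient by `ω - ξ`. -/
noncomputable abbrev quo (ξ : B) : Type _ := MvPolynomial σ B ⧸ Ideal.span {ω - C ξ}

lemma key (he : 1 ≤ e) (hω : ω.IsHomogeneous e) (hωp : Prime ω) (ξ : B)
    {f g r : MvPolynomial σ B} {a b : ℕ} (hf : f.totalDegree ≤ a) (hg : g.totalDegree ≤ b)
    (hfa : ¬ ω ∣ homogeneousComponent a f) (hgb : ¬ ω ∣ homogeneousComponent b g)
    (hr : r.totalDegree ≤ a + b) (hr0 : homogeneousComponent (a + b) r = 0) :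
    f * g - r ∉ Ideal.span {ω - C ξ} := by
  intro hmem
  rw [Ideal.mem_span_singleton] at hmem
  obtain ⟨s, hs⟩ := hmem
  have h1 : homogeneousComponent (a + b) (f * g - r)
      = homogeneousComponent a f * homogeneousComponent b g := by
    rw [map_sub, hc_mul_top hf hg, hr0, sub_zero]
  have h2 : (f * g - r).totalDegree ≤ a + b := by
    refine (totalDegree_sub _ _).trans (max_le ((totalDegree_mul _ _).trans (by omega)) hr)
  have h3 : ω ∣ homogeneousComponent (a + b) (f * g - r) := by
    rw [hs]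
    by_cases hs0 : s = 0
    · rw [hs0]; simp
    · have h4 := le_totalDegree_of_mul he hω hωp.ne_zero ξ hs0
      rw [← hs] at h4
      have h5 : a + b = e + (a + b - e) := by omega
      rw [sub_mul, map_sub, homogeneousComponent_C_mul,
        homogeneousComponent_eq_zero (a + b) s (by omega), mul_zero, sub_zero, h5, hc_mul hω]
      exact Dvd.intro _ rfl
  rw [h1] at h3
  rcases hωp.dvd_or_dvd h3 with h | h
  · exact hfa h
  · exact hgb h

omit [IsDomain B] in
/-- If the top component is divisible by `ω` then the class has smaller degree. -/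
lemma reduce (he : 1 ≤ e) (hω : ω.IsHomogeneous e) (ξ : B)
    {f : MvPolynomial σ B} {n : ℕ} (hf : f.totalDegree ≤ n)
    (hfa : ω ∣ homogeneousComponent n f) :
    ∃ f' : MvPolynomial σ B, f - f' ∈ Ideal.span {ω - C ξ} ∧ f'.totalDegree ≤ n ∧
      homogeneousComponent n f' = 0 := by
  obtain ⟨h, hh⟩ := hfa
  have h0 : homogeneousComponent n (homogeneousComponent n f) = homogeneousComponent n f := by
    rw [homogeneousComponent_of_mem (m := n) (n := n) (homogeneousComponent_isHomogeneous n f),
      if_pos rfl]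
  rcases Nat.lt_or_ge n e with hne | hne
  · refine ⟨f, by simp, hf, ?_⟩
    rw [← h0, hh, hc_mul_lt hω h n hne]
  · set h' := homogeneousComponent (n - e) h with hh'
    have h1 : homogeneousComponent n f = ω * h' := by
      rw [← h0, hh]
      have := hc_mul hω h (n - e)
      rw [show e + (n - e) = n by omega] at this
      rw [this]
    have h2 : h'.totalDegree ≤ n - e := (homogeneousComponent_isHomogeneous _ _).totalDegree_le
    refine ⟨f - (ω - C ξ) * h', ?_, ?_, ?_⟩
    · rw [sub_sub_cancel]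
      exact Ideal.mul_mem_right _ _ (Ideal.mem_span_singleton_self _)
    · refine (totalDegree_sub _ _).trans (max_le hf ((totalDegree_mul _ _).trans ?_))
      have h3 : (ω - C ξ).totalDegree ≤ e :=
        (totalDegree_sub _ _).trans (max_le hω.totalDegree_le (by simp))
      omega
    · rw [map_sub, h1, sub_mul, map_sub, homogeneousComponent_C_mul,
        homogeneousComponent_eq_zero n h' (by omega), mul_zero, sub_zero]
      have := hc_mul hω h' (n - e)
      rw [show e + (n - e) = n by omega] at this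
      rw [this, homogeneousComponent_of_mem (m := n - e) (n := n - e)
        (homogeneousComponent_isHomogeneous _ _), if_pos rfl, sub_self]

variable (ω) in
/-- `a` is represented by a polynomial of degree at most `n`. -/
def Fil (ξ : B) (n : ℕ) (a : quo ω ξ) : Prop :=
  ∃ f : MvPolynomial σ B, f.totalDegree ≤ n ∧ Ideal.Quotient.mk _ f = a

omit [IsDomain B] in
lemma Fil.exists (ξ : B) (a : quo ω ξ) : ∃ n, Fil ω ξ n a := by
  obtain ⟨f, rfl⟩ := Ideal.Quotient.mk_surjective a
  exact ⟨_, f, le_rfl, rfl⟩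

omit [IsDomain B] in
open Classical in
variable (ω) in
/-- The degree of a class. -/
noncomputable def dg (ξ : B) (a : quo ω ξ) : ℕ := Nat.find (Fil.exists ξ a)

omit [IsDomain B] in
lemma dg_le_iff {ξ : B} {a : quo ω ξ} {n : ℕ} : dg ω ξ a ≤ n ↔ Fil ω ξ n a := by
  classical
  rw [dg]
  constructor
  · intro h
    obtain ⟨f, hf, hfa⟩ := Nat.find_spec (Fil.exists ξ a)
    exact ⟨f, hf.trans h, hfa⟩
  · intro h
    exact Nat.find_min' _ h

lemma exists_reduced (he : 1 ≤ e) (hω : ω.IsHomogeneous e) (ξ : B) {a : quo ω ξ} (ha : a ≠ 0) :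
    ∃ f : MvPolynomial σ B, f.totalDegree ≤ dg ω ξ a ∧ Ideal.Quotient.mk _ f = a ∧
      ¬ ω ∣ homogeneousComponent (dg ω ξ a) f := by
  obtain ⟨f, hf, hfa⟩ := dg_le_iff.mp (le_refl (dg ω ξ a))
  refine ⟨f, hf, hfa, fun hdvd => ?_⟩
  obtain ⟨f', h1, h2, h3⟩ := reduce he hω ξ hf hdvd
  have h4 : Ideal.Quotient.mk (Ideal.span {ω - C ξ}) f' = a := by
    rw [← hfa]
    exact (Ideal.Quotient.mk_eq_mk_iff_sub_mem _ _).mpr h1 |>.symm
  rcases Nat.eq_zero_or_pos (dg ω ξ a) with h0 | h0
  · rw [h0] at h2 h3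
    apply ha
    rw [← h4, eq_zero_of_totalDegree_zero h2 h3, map_zero]
  · obtain ⟨n, hn⟩ : ∃ n, dg ω ξ a = n + 1 := ⟨dg ω ξ a - 1, by omega⟩
    rw [hn] at h2 h3
    have h5 := totalDegree_le_pred h2 h3
    have h6 : dg ω ξ a ≤ n := dg_le_iff.mpr ⟨f', h5, h4⟩
    omega

/-- Multiplicativity of the degree. -/
lemma dg_mul (he : 1 ≤ e) (hω : ω.IsHomogeneous e) (hωp : Prime ω) (ξ : B) {a b : quo ω ξ}
    (ha : a ≠ 0) (hb : b ≠ 0) : a * b ≠ 0 ∧ dg ω ξ (a * b) = dg ω ξ a + dg ω ξ b := by
  obtain ⟨f, hf, hfa, hfr⟩ := exists_reduced he hω ξ ha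
  obtain ⟨g, hg, hgb, hgr⟩ := exists_reduced he hω ξ hb
  have hab : Ideal.Quotient.mk (Ideal.span {ω - C ξ}) (f * g) = a * b := by
    rw [map_mul, hfa, hgb]
  have hne : a * b ≠ 0 := by
    intro h
    rw [← hab, Ideal.Quotient.eq_zero_iff_mem] at h
    have := key he hω hωp ξ (r := 0) hf hg hfr hgr (by simp) (by simp)
    rw [sub_zero] at this
    exact this h
  refine ⟨hne, le_antisymm ?_ ?_⟩
  · exact dg_le_iff.mpr ⟨f * g, (totalDegree_mul _ _).trans (by omega), hab⟩
  · by_contra hcon
    push Not at hcon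
    obtain ⟨r, hr, hrab⟩ := dg_le_iff.mp (le_refl (dg ω ξ (a * b)))
    refine key he hω hωp ξ (r := r) hf hg hfr hgr (by omega)
      (homogeneousComponent_eq_zero _ _ (by omega)) ?_
    rw [← Ideal.Quotient.mk_eq_mk_iff_sub_mem, hab, hrab]

lemma one_notMem (he : 1 ≤ e) (hω : ω.IsHomogeneous e) (hωp : Prime ω) (ξ : B) :
    (1 : MvPolynomial σ B) ∉ Ideal.span {ω - C ξ} := by
  intro h
  rw [Ideal.mem_span_singleton] at h
  obtain ⟨s, hs⟩ := h
  have hs0 : s ≠ 0 := by rintro rfl; simp at hs
  have := le_totalDegree_of_mul he hω hωp.ne_zero ξ hs0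
  rw [← hs, totalDegree_one] at this
  omega

lemma isDomain_quo (he : 1 ≤ e) (hω : ω.IsHomogeneous e) (hωp : Prime ω) (ξ : B) :
    IsDomain (quo ω ξ) := by
  have h1 : Nontrivial (quo ω ξ) := by
    refine ⟨⟨1, 0, fun h => one_notMem he hω hωp ξ ?_⟩⟩
    rw [← Ideal.Quotient.eq_zero_iff_mem, map_one]
    exact h
  have h2 : NoZeroDivisors (quo ω ξ) := by
    refine ⟨fun {a b} hab => ?_⟩
    by_contra hcon
    push Not at hcon
    exact (dg_mul he hω hωp ξ hcon.1 hcon.2).1 hab
  exact NoZeroDivisors.to_isDomain _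

/-- Classes of polynomials of small degree are zero only if the polynomial is. -/
lemma eq_zero_of_mk (he : 1 ≤ e) (hω : ω.IsHomogeneous e) (hωp : Prime ω) (ξ : B)
    {f : MvPolynomial σ B} (hf : f.totalDegree < e)
    (h : Ideal.Quotient.mk (Ideal.span {ω - C ξ}) f = 0) : f = 0 := by
  rw [Ideal.Quotient.eq_zero_iff_mem, Ideal.mem_span_singleton] at h
  obtain ⟨s, hs⟩ := h
  by_contra hne
  have hs0 : s ≠ 0 := by rintro rfl; simp at hs; exact hne hs
  have := le_totalDegree_of_mul he hω hωp.ne_zero ξ hs0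
  rw [← hs] at this
  omega

end Quot

end K4H17.DX
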