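import Mathlib

set_option maxHeartbeats 400000

namespace K4H17.DX

open MvPolynomial

/-- Homogeneous components of a product with a homogeneous factor. -/
lemma hc_mul {R σ : Type*} [CommSemiring R] {w : MvPolynomial σ R} {e : ℕ}
    (hw : w.IsHomogeneous e) (h : MvPolynomial σ R) (n : ℕ) :
    homogeneousComponent (e + n) (w * h) = w * homogeneousComponent n h := by
  classical
  conv_lhs => rw [← sum_homogeneousComponent h, Finset.mul_sum, map_sum]
  have h1 : ∀ i ∈ Finset.range (h.totalDegree + 1),
      homogeneousComponent (e + n) (w * homogeneousComponent i h)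
        = if i = n then w * homogeneousComponent n h else 0 := by
    intro i _
    rw [homogeneousComponent_of_mem (m := e + n) (n := e + i)
      (hw.mul (homogeneousComponent_isHomogeneous i h))]
    by_cases hi : i = n
    · subst hi; simp
    · rw [if_neg (by omega), if_neg hi]
  rw [Finset.sum_congr rfl h1, Finset.sum_ite_eq']
  split_ifs with hn
  · rfl
  · rw [homogeneousComponent_eq_zero, mul_zero]
    simpa using hn

/-- Low homogeneous components of a product with a homogeneous factor vanish. -/
lemma hc_mul_lt {R σ : Type*} [CommSemiring R] {w : MvPolynomial σ R} {e : ℕ}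
    (hw : w.IsHomogeneous e) (h : MvPolynomial σ R) (n : ℕ) (hn : n < e) :
    homogeneousComponent n (w * h) = 0 := by
  classical
  conv_lhs => rw [← sum_homogeneousComponent h, Finset.mul_sum, map_sum]
  refine Finset.sum_eq_zero fun i _ => ?_
  rw [homogeneousComponent_of_mem (m := n) (n := e + i)
      (hw.mul (homogeneousComponent_isHomogeneous i h)), if_neg (by omega)]

section Jac

variable {k : Type*} [Field k]

/-- The Jacobian ideal. -/
noncomputable def jacIdeal (Ω : MvPolynomial (Fin 3) k) : Ideal (MvPolynomial (Fin 3) k) :=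
  Ideal.span (Set.range fun i => pderiv i Ω)

attribute [local instance] MvPolynomial.gradedAlgebra in
lemma jacIdeal_hom {Ω : MvPolynomial (Fin 3) k} {e : ℕ} (hΩ : Ω.IsHomogeneous e) :
    (jacIdeal Ω).IsHomogeneous (homogeneousSubmodule (Fin 3) k) := by
  refine Ideal.homogeneous_span _ _ ?_
  rintro _ ⟨i, rfl⟩
  exact ⟨e - 1, hΩ.pderiv⟩

/-- Isolated singularity: powers of the variables lie in the Jacobian ideal. -/
lemma exists_pow_mem {Ω : MvPolynomial (Fin 3) k} {e : ℕ} (hΩ : Ω.IsHomogeneous e)
    (hfin : Module.Finite k (MvPolynomial (Fin 3) k ⧸ jacIdeal Ω)) (m : Fin 3) :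
    ∃ N : ℕ, (X m : MvPolynomial (Fin 3) k) ^ N ∈ jacIdeal Ω := by
  set I := jacIdeal Ω with hI
  have hint : IsIntegral k (Ideal.Quotient.mk I (X m)) := Algebra.IsIntegral.isIntegral _
  obtain ⟨p, hp, hp0⟩ := hint
  refine ⟨p.natDegree, ?_⟩
  have h1 : Polynomial.aeval (X m : MvPolynomial (Fin 3) k) p ∈ I := by
    rw [← Ideal.Quotient.eq_zero_iff_mem]
    rw [← Ideal.Quotient.mkₐ_eq_mk k I, ← Polynomial.aeval_algHom_apply]
    exact hp0
  have h2 := homogeneousComponent_mem_of_mem (jacIdeal_hom hΩ) h1 p.natDegree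
  rw [Polynomial.aeval_eq_sum_range, map_sum] at h2
  rw [Finset.sum_eq_single p.natDegree] at h2
  · rw [map_smul, homogeneousComponent_of_mem (m := p.natDegree) (n := p.natDegree)
      (isHomogeneous_X_pow m p.natDegree), if_pos rfl] at h2
    simpa [hp.coeff_natDegree] using h2
  · intro b _ hb
    rw [map_smul, homogeneousComponent_of_mem (m := p.natDegree) (n := b)
      (isHomogeneous_X_pow m b), if_neg (Ne.symm hb), smul_zero]
  · intro hn
    simp at hn

/-- The homogeneous form of the isolated singularity condition. -/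
lemma exists_hom_repr {Ω : MvPolynomial (Fin 3) k} {e : ℕ} (hΩ : Ω.IsHomogeneous e)
    (hfin : Module.Finite k (MvPolynomial (Fin 3) k ⧸ jacIdeal Ω)) :
    ∃ N : ℕ, ∀ m : Fin 3, ∃ q : Fin 3 → MvPolynomial (Fin 3) k,
      (∀ i, (q i).IsHomogeneous N) ∧
      (X m : MvPolynomial (Fin 3) k) ^ (e - 1 + N) = ∑ i, pderiv i Ω * q i := by
  choose N hN using exists_pow_mem hΩ hfin
  refine ⟨∑ m, N m, fun m => ?_⟩
  have h1 : (X m : MvPolynomial (Fin 3) k) ^ (e - 1 + ∑ m, N m) ∈ jacIdeal Ω := by
    have : e - 1 + ∑ m, N m = N m + (e - 1 + ∑ m, N m - N m) := by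
      have := Finset.single_le_sum (f := N) (fun i _ => Nat.zero_le _) (Finset.mem_univ m)
      omega
    rw [this, pow_add]
    exact Ideal.mul_mem_right _ _ (hN m)
  rw [jacIdeal, Ideal.mem_span_range_iff_exists_fun] at h1
  obtain ⟨c, hc⟩ := h1
  refine ⟨fun i => homogeneousComponent (∑ m, N m) (c i),
    fun i => homogeneousComponent_isHomogeneous _ _, ?_⟩
  have h2 := congrArg (homogeneousComponent (e - 1 + ∑ m, N m)) hc
  rw [homogeneousComponent_of_mem (m := e - 1 + ∑ m, N m) (n := e - 1 + ∑ m, N m)
      (isHomogeneous_X_pow m _), if_pos rfl, map_sum] at h2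
  rw [← h2]
  refine Finset.sum_congr rfl fun i _ => ?_
  rw [mul_comm (c i), hc_mul hΩ.pderiv]

end Jac

section Field

variable {K : Type*} [Field K]

/-- A factor with nonzero constant term of a homogeneous polynomial is constant. -/
lemma totalDegree_eq_zero_of_factor {σ : Type*} {f g Ω : MvPolynomial σ K} {e : ℕ}
    (hΩ : Ω.IsHomogeneous e) (hfg : f * g = Ω) (hg : g ≠ 0) (hf : coeff 0 f ≠ 0) :
    f.totalDegree = 0 := by
  classical
  have hf0 : f ≠ 0 := by rintro rfl; simp at hf
  obtain ⟨d, hd, hmin⟩ := Finset.exists_min_image g.support Finsupp.degree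
    (by simpa [Finset.nonempty_iff_ne_empty] using hg)
  have hc : coeff d (f * g) = coeff 0 f * coeff d g := by
    rw [coeff_mul, Finset.sum_eq_single (0, d)]
    · rintro ⟨u, v⟩ huv hne
      rw [Finset.HasAntidiagonal.mem_antidiagonal] at huv
      simp only at huv ⊢
      by_cases hv : v ∈ g.support
      · have h1 := hmin v hv
        have h2 : Finsupp.degree d = Finsupp.degree u + Finsupp.degree v := by
          rw [← huv, map_add]
        have h3 : Finsupp.degree u = 0 := by omega
        have h4 : u = 0 := (Finsupp.degree_eq_zero_iff u).mp h3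
        exfalso; apply hne
        subst h4
        simp at huv
        simp [huv]
      · rw [notMem_support_iff.mp hv, mul_zero]
    · intro h
      exact absurd (by simp) h
  have hne : coeff d Ω ≠ 0 := by
    rw [← hfg, hc]
    exact mul_ne_zero hf (mem_support_iff.mp hd)
  have hde : Finsupp.degree d = e := by
    by_contra hcon
    exact hne (hΩ.coeff_eq_zero hcon)
  have hΩ0 : Ω ≠ 0 := by rintro rfl; simp at hne
  have h1 : f.totalDegree + g.totalDegree = e := by
    rw [← totalDegree_mul_of_isDomain hf0 hg, hfg, hΩ.totalDegree hΩ0]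
  have h2 : e ≤ g.totalDegree := by
    rw [← hde]
    exact le_totalDegree hd
  omega

lemma isUnit_of_totalDegree {σ : Type*} {f : MvPolynomial σ K} (hf : f.totalDegree = 0)
    (hf0 : f ≠ 0) : IsUnit f := by
  rw [totalDegree_eq_zero_iff_eq_C] at hf
  have hc : coeff 0 f ≠ 0 := by
    intro h
    rw [h, map_zero] at hf
    exact hf0 hf
  rw [hf]
  exact (isUnit_iff_ne_zero.mpr hc).map C

/-- kill the first variable -/
noncomputable def k1 : MvPolynomial (Fin 3) K →ₐ[K] MvPolynomial (Fin 3) K :=
  aeval ![0, X 1, X 2]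
/-- kill the second variable -/
noncomputable def k2 : MvPolynomial (Fin 3) K →ₐ[K] MvPolynomial (Fin 3) K :=
  aeval ![X 0, 0, X 2]
/-- kill the third variable -/
noncomputable def k3 : MvPolynomial (Fin 3) K →ₐ[K] MvPolynomial (Fin 3) K :=
  aeval ![X 0, X 1, 0]

/-- The maximal ideal at the origin has height at least three. -/
lemma three_le_height : 3 ≤ (RingHom.ker
    (k3.comp (k2.comp (k1 (K := K)))).toRingHom : Ideal (MvPolynomial (Fin 3) K)).height := by
  set p1 : Ideal (MvPolynomial (Fin 3) K) := RingHom.ker (k1 (K := K)).toRingHom with hp1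
  set p2 : Ideal (MvPolynomial (Fin 3) K) := RingHom.ker (k2.comp (k1 (K := K))).toRingHom with hp2
  set p3 : Ideal (MvPolynomial (Fin 3) K) :=
    RingHom.ker (k3.comp (k2.comp (k1 (K := K)))).toRingHom with hp3
  have : p1.IsPrime := RingHom.ker_isPrime _
  have : p2.IsPrime := RingHom.ker_isPrime _
  have : p3.IsPrime := RingHom.ker_isPrime _
  have : (⊥ : Ideal (MvPolynomial (Fin 3) K)).IsPrime := Ideal.isPrime_bot
  have h01 : (⊥ : Ideal (MvPolynomial (Fin 3) K)) < p1 := by
    rw [bot_lt_iff_ne_bot]
    intro h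
    have : (X 0 : MvPolynomial (Fin 3) K) ∈ p1 := by
      rw [hp1, RingHom.mem_ker]
      simp [k1]
    rw [h, Ideal.mem_bot] at this
    exact X_ne_zero 0 this
  have h12 : p1 < p2 := by
    refine lt_of_le_of_ne (fun x hx => ?_) (fun h => ?_)
    · rw [hp1, RingHom.mem_ker] at hx
      rw [hp2, RingHom.mem_ker]
      have hx' : k1 x = 0 := hx
      simp [hx']
    · have : (X 1 : MvPolynomial (Fin 3) K) ∈ p2 := by
        rw [hp2, RingHom.mem_ker]
        simp [k1, k2]
      rw [← h, hp1, RingHom.mem_ker] at this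
      have h' : (k1 (X 1) : MvPolynomial (Fin 3) K) = 0 := this
      simp [k1] at h'
  have h23 : p2 < p3 := by
    refine lt_of_le_of_ne (fun x hx => ?_) (fun h => ?_)
    · rw [hp2, RingHom.mem_ker] at hx
      rw [hp3, RingHom.mem_ker]
      have hx' : k2 (k1 x) = 0 := hx
      simp [hx']
    · have : (X 2 : MvPolynomial (Fin 3) K) ∈ p3 := by
        rw [hp3, RingHom.mem_ker]
        simp [k1, k2, k3]
      rw [← h, hp2, RingHom.mem_ker] at this
      have h' : (k2 (k1 (X 2)) : MvPolynomial (Fin 3) K) = 0 := this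
      simp [k1, k2] at h'
  have e1 := Ideal.height_add_one_le_of_lt_of_isPrime h01
  have e2 := Ideal.height_add_one_le_of_lt_of_isPrime h12
  have e3 := Ideal.height_add_one_le_of_lt_of_isPrime h23
  have e0 : (0 : ℕ∞) ≤ (⊥ : Ideal (MvPolynomial (Fin 3) K)).height := bot_le
  calc (3 : ℕ∞) = 0 + 1 + 1 + 1 := by norm_num
    _ ≤ (⊥ : Ideal (MvPolynomial (Fin 3) K)).height + 1 + 1 + 1 := by gcongr
    _ ≤ p1.height + 1 + 1 := by gcongr
    _ ≤ p2.height + 1 := by gcongr
    _ ≤ p3.height := e3

/-- An isolated-singularity potential is prime over a field. -/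
lemma prime_of_pow_mem {Ω : MvPolynomial (Fin 3) K} {e : ℕ} (he : 1 ≤ e)
    (hΩ : Ω.IsHomogeneous e)
    (hN : ∃ N : ℕ, ∀ m : Fin 3, (X m : MvPolynomial (Fin 3) K) ^ N ∈ jacIdeal Ω) :
    Prime Ω := by
  classical
  rw [← irreducible_iff_prime]
  obtain ⟨N, hN⟩ := hN
  have hΩ0 : Ω ≠ 0 := by
    rintro rfl
    have h1 := hN 0
    have h2 : jacIdeal (0 : MvPolynomial (Fin 3) K) = ⊥ := by
      rw [jacIdeal, Ideal.span_eq_bot]
      rintro _ ⟨i, rfl⟩
      simp
    rw [h2, Ideal.mem_bot] at h1
    exact pow_ne_zero N (X_ne_zero 0) h1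
  refine ⟨?_, ?_⟩
  · intro hu
    have h1 := hΩ.totalDegree hΩ0
    have h2 : Ω.totalDegree = 0 := by
      obtain ⟨c, hc, hc2⟩ := MvPolynomial.isUnit_iff_eq_C_of_isReduced.mp hu
      rw [hc2]; simp
    omega
  · intro f g hfg
    have hf : f ≠ 0 := by rintro rfl; simp at hfg; exact hΩ0 hfg
    have hg : g ≠ 0 := by rintro rfl; simp at hfg; exact hΩ0 hfg
    by_cases hf0 : coeff 0 f = 0
    swap
    · left
      exact isUnit_of_totalDegree (totalDegree_eq_zero_of_factor hΩ hfg.symm hg hf0) hf
    by_cases hg0 : coeff 0 g = 0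
    swap
    · right
      exact isUnit_of_totalDegree
        (totalDegree_eq_zero_of_factor hΩ ((mul_comm g f).trans hfg.symm) hf hg0) hg
    exfalso
    set p3 : Ideal (MvPolynomial (Fin 3) K) :=
      RingHom.ker (k3.comp (k2.comp (k1 (K := K)))).toRingHom with hp3
    have : p3.IsPrime := RingHom.ker_isPrime _
    have hp3' : ∀ h : MvPolynomial (Fin 3) K, h ∈ p3 ↔ coeff 0 h = 0 := by
      intro h
      have : (k3.comp (k2.comp (k1 (K := K)))) = (Algebra.ofId K _).comp (aeval fun _ => (0 : K)) := by
        apply algHom_ext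
        intro i
        fin_cases i <;> simp [k1, k2, k3]
      rw [hp3, RingHom.mem_ker]
      change (k3.comp (k2.comp (k1 (K := K)))) h = 0 ↔ _
      rw [this]
      simp [Algebra.ofId_apply, constantCoeff_eq]
    have hmin : p3 ∈ (Ideal.span ((({f, g} : Finset (MvPolynomial (Fin 3) K)) :
        Set (MvPolynomial (Fin 3) K)))).minimalPrimes := by
      refine ⟨⟨inferInstance, ?_⟩, ?_⟩
      · rw [Ideal.span_le]
        intro x hx
        simp at hx
        rcases hx with rfl | rfl
        · exact (hp3' _).mpr hf0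
        · exact (hp3' _).mpr hg0
      · rintro q ⟨hq, hle⟩ _ x hx
        have hX : ∀ m : Fin 3, (X m : MvPolynomial (Fin 3) K) ∈ q := by
          intro m
          have h1 : jacIdeal Ω ≤ q := by
            refine le_trans ?_ hle
            rw [jacIdeal, Ideal.span_le]
            rintro _ ⟨i, rfl⟩
            simp only [SetLike.mem_coe]
            rw [hfg, Derivation.leibniz]
            refine Ideal.add_mem _ ?_ ?_
            · exact Ideal.mul_mem_right _ _ (Ideal.subset_span (by simp))
            · exact Ideal.mul_mem_right _ _ (Ideal.subset_span (by simp))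
          exact hq.mem_of_pow_mem N (h1 (hN m))
        have hx0 : coeff 0 x = 0 := (hp3' x).mp hx
        have hspan : x ∈ Ideal.span (Set.range (X : Fin 3 → MvPolynomial (Fin 3) K)) := by
          have := MvPolynomial.mem_ideal_span_X_image (x := x) (s := Set.univ)
          rw [Set.image_univ] at this
          rw [this]
          intro m hm
          by_contra hcon
          push Not at hcon
          have : m = 0 := by
            ext i
            exact hcon i (Set.mem_univ i)
          rw [this] at hm
          exact (mem_support_iff.mp hm) hx0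
        have h3 : Ideal.span (Set.range (X : Fin 3 → MvPolynomial (Fin 3) K)) ≤ q := by
          rw [Ideal.span_le]
          rintro _ ⟨i, rfl⟩
          exact hX i
        exact h3 hspan
    have h1 := Ideal.height_le_card_of_mem_minimalPrimes_span_finset hmin
    have h2 := three_le_height (K := K)
    have h3 : (3 : ℕ∞) ≤ (({f, g} : Finset (MvPolynomial (Fin 3) K)).card : ℕ∞) := h2.trans h1
    have h4 : ({f, g} : Finset (MvPolynomial (Fin 3) K)).card ≤ 2 := Finset.card_le_two
    have h5 : 3 ≤ ({f, g} : Finset (MvPolynomial (Fin 3) K)).card := by exact_mod_cast h3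
    omega

end Field

section Domain

variable {k : Type*} [Field k] {B : Type*} [CommRing B] [IsDomain B] [Algebra k B]

lemma pow_mem_map {Ω : MvPolynomial (Fin 3) k} {e : ℕ} (hΩ : Ω.IsHomogeneous e)
    (hfin : Module.Finite k (MvPolynomial (Fin 3) k ⧸ jacIdeal Ω))
    (K : Type*) [Field K] [Algebra k K] :
    ∃ N : ℕ, ∀ m : Fin 3, (X m : MvPolynomial (Fin 3) K) ^ N ∈
      jacIdeal (map (algebraMap k K) Ω) := by
  obtain ⟨N, hN⟩ := exists_hom_repr hΩ hfin
  refine ⟨e - 1 + N, fun m => ?_⟩
  obtain ⟨q, _, hq⟩ := hN m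
  have h1 := congrArg (map (algebraMap k K)) hq
  rw [map_pow, map_X, map_sum] at h1
  rw [h1]
  refine Ideal.sum_mem _ fun i _ => ?_
  rw [map_mul, ← pderiv_map]
  exact Ideal.mul_mem_right _ _ (Ideal.subset_span ⟨i, rfl⟩)

/-- An isolated-singularity potential is prime over every domain containing the field. -/
lemma prime_over_domain {Ω : MvPolynomial (Fin 3) k} {e : ℕ} (he : 1 ≤ e)
    (hΩ : Ω.IsHomogeneous e)
    (hfin : Module.Finite k (MvPolynomial (Fin 3) k ⧸ jacIdeal Ω)) :
    Prime (map (algebraMap k B) Ω) := by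
  classical
  set K := FractionRing B with hK
  have hP : Prime (map (algebraMap k K) Ω) :=
    prime_of_pow_mem he (hΩ.map _) (pow_mem_map hΩ hfin K)
  have hinj : Function.Injective (algebraMap B K) := IsFractionRing.injective B K
  obtain ⟨π, hπ⟩ := LinearMap.exists_leftInverse_of_injective
    (IsScalarTower.toAlgHom k B K).toLinearMap (LinearMap.ker_eq_bot.mpr hinj)
  have hπ' : ∀ b : B, π (algebraMap B K b) = b := fun b => congrArg (fun f => f b) hπ
  have hcomp : (algebraMap B K).comp (algebraMap k B) = algebraMap k K :=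
    (IsScalarTower.algebraMap_eq k B K).symm
  have hmap : ∀ f : MvPolynomial (Fin 3) k,
      map (algebraMap B K) (map (algebraMap k B) f) = map (algebraMap k K) f := by
    intro f
    rw [map_map, hcomp]
  -- descent of divisibility
  have hdesc : ∀ f : MvPolynomial (Fin 3) B,
      map (algebraMap k K) Ω ∣ map (algebraMap B K) f → map (algebraMap k B) Ω ∣ f := by
    rintro f ⟨h, hh⟩
    set h' : MvPolynomial (Fin 3) B := ∑ d ∈ h.support, monomial d (π (coeff d h)) with hh'
    have hc : ∀ d, coeff d h' = π (coeff d h) := by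
      intro d
      rw [hh', coeff_sum]
      simp only [coeff_monomial]
      rw [Finset.sum_ite_eq']
      split_ifs with hd
      · rfl
      · rw [notMem_support_iff.mp hd, map_zero]
    refine ⟨h', ?_⟩
    ext d
    have h1 := congrArg (fun p => π (coeff d p)) hh
    simp only [coeff_map, hπ'] at h1
    rw [h1, coeff_mul, coeff_mul, map_sum]
    refine Finset.sum_congr rfl fun p _ => ?_
    rw [coeff_map, coeff_map, hc, ← Algebra.smul_def, ← Algebra.smul_def, map_smul]
  refine ⟨?_, ?_, ?_⟩
  · intro h
    apply hP.ne_zero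
    rw [← hmap, h, map_zero]
  · intro h
    apply hP.not_isUnit
    rw [← hmap]
    exact h.map _
  · intro f g hfg
    have h1 : map (algebraMap k K) Ω ∣ map (algebraMap B K) f * map (algebraMap B K) g := by
      rw [← map_mul, ← hmap]
      exact _root_.map_dvd _ hfg
    rcases hP.dvd_or_dvd h1 with h2 | h2
    · exact Or.inl (hdesc f h2)
    · exact Or.inr (hdesc g h2)

end Domain

end K4H17.DX
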