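import Pool.Agent.K4H17.DX.Tensor

set_option maxHeartbeats 400000
set_option linter.unusedSectionVars false

namespace K4H17.DX

open MvPolynomial PiTensorProduct

open scoped TensorProduct

section Simult

variable {k : Type*} [Field k] {κ : Type} {Ω : κ → MvPolynomial (Fin 3) k} {ξ : κ → k}
  [Fintype κ] [DecidableEq κ]

lemma monomial_eq_prod (s : κ × Fin 3 →₀ ℕ) :
    monomial s (1 : k) = ∏ i, inc i
      (monomial (Finsupp.equivFunOnFinite.symm fun m => s (i, m)) 1) := by
  simp only [inc, rename_monomial]
  rw [← monomial_sum_one]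
  refine congrArg (fun t => monomial t (1 : k)) ?_
  ext ⟨i, m⟩
  rw [Finsupp.finsetSum_apply, Finset.sum_eq_single i]
  · have hi : Function.Injective (fun m : Fin 3 => ((i, m) : κ × Fin 3)) :=
      fun a b h => by simpa using h
    have h := Finsupp.mapDomain_apply (M := ℕ) hi
      (Finsupp.equivFunOnFinite.symm fun m => s (i, m)) m
    exact h.symm
  · intro l _ hl
    rw [Finsupp.mapDomain_of_notMem_range]
    rintro ⟨a, ha⟩
    exact hl (congrArg Prod.fst ha)
  · simp

lemma FR_eq {N : Type*} [AddCommMonoid N] [Module k N]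
    (L L' : MvPolynomial (κ × Fin 3) k →ₗ[k] N) {j : κ} {n : ℕ}
    (h : ∀ s, wt j s ≤ n → L (monomial s 1) = L' (monomial s 1))
    {p : MvPolynomial (κ × Fin 3) k} (hp : p ∈ FR k j n) : L p = L' p := by
  rw [mem_FR] at hp
  rw [p.as_sum, map_sum, map_sum]
  refine Finset.sum_congr rfl fun s hs => ?_
  have : monomial s (coeff s p) = coeff s p • monomial s (1 : k) := by
    rw [smul_monomial, smul_eq_mul, mul_one]
  rw [this, map_smul, map_smul, h s (hp s hs)]

/-- The linear projection of a factor onto the classes of degree at most `n`. -/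
lemma exists_proj (Ω : MvPolynomial (Fin 3) k) (ξ : k) (n : ℕ) :
    ∃ π : Fac Ω ξ →ₗ[k] Fac Ω ξ,
      (∀ a, ∃ p : MvPolynomial (Fin 3) k, p.totalDegree ≤ n ∧ Ideal.Quotient.mk _ p = π a) ∧
      ∀ p : MvPolynomial (Fin 3) k, p.totalDegree ≤ n →
        π (Ideal.Quotient.mk _ p) = Ideal.Quotient.mk _ p := by
  set S : Submodule k (Fac Ω ξ) := (restrictTotalDegree (Fin 3) k n).map
    (Ideal.Quotient.mkₐ k (Ideal.span {Ω - C ξ})).toLinearMap with hS
  obtain ⟨f, hf⟩ := S.subtype.exists_leftInverse_of_injective (by simp)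
  refine ⟨S.subtype.comp f, fun a => ?_, fun p hp => ?_⟩
  · obtain ⟨p, hp, hpa⟩ := (f a).2
    refine ⟨p, ?_, hpa⟩
    simpa [mem_restrictTotalDegree] using hp
  · have hmem : Ideal.Quotient.mk (Ideal.span {Ω - C ξ}) p ∈ S :=
      ⟨p, by simpa [mem_restrictTotalDegree] using hp, rfl⟩
    have := congrArg (fun g => (g ⟨_, hmem⟩ : S)) hf
    simp only [LinearMap.comp_apply, Submodule.subtype_apply, LinearMap.id_apply] at this
    rw [LinearMap.comp_apply, this]
    rfl


/-- Intersections of the degree filtrations in the various directions. -/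
theorem exists_simultaneous (n : κ → ℕ) {a : PP Ω ξ} (ha : ∀ l, a ∈ FP Ω ξ l (n l)) :
    ∃ p : MvPolynomial (κ × Fin 3) k, (∀ l, p ∈ FR k l (n l)) ∧ Ideal.Quotient.mk _ p = a := by
  choose π hπ1 hπ2 using fun l => exists_proj (Ω l) (ξ l) (n l)
  -- the partial projections
  have hfix : ∀ l, PiTensorProduct.map (R := k)
      (Function.update (fun i => (LinearMap.id : Fac (Ω i) (ξ i) →ₗ[k] Fac (Ω i) (ξ i))) l (π l))
      (toT Ω ξ a) = toT Ω ξ a := by
    intro l
    obtain ⟨p, hp, rfl⟩ := mem_FP.mp (ha l)
    rw [toT_mk]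
    refine FR_eq ((PiTensorProduct.map (R := k)
      (Function.update (fun i => (LinearMap.id : Fac (Ω i) (ξ i) →ₗ[k] Fac (Ω i) (ξ i))) l
        (π l))).comp (toTpoly Ω ξ).toLinearMap) (toTpoly Ω ξ).toLinearMap
        (j := l) (n := n l) (fun s hs => ?_) hp
    · rw [LinearMap.comp_apply]
      have h2 : (toTpoly Ω ξ).toLinearMap (monomial s 1) = tprod k fun i =>
          (Ideal.Quotient.mk (Ideal.span {Ω i - C (ξ i)})
            (monomial (Finsupp.equivFunOnFinite.symm fun m => s (i, m)) 1)) := by
        have h3 := monomial_eq_prod (k := k) s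
        change toTpoly Ω ξ (monomial s 1) = _
        have h4 := toT_fromT Ω ξ (tprod k fun i =>
          (Ideal.Quotient.mk (Ideal.span {Ω i - C (ξ i)})
            (monomial (Finsupp.equivFunOnFinite.symm fun m => s (i, m)) 1)))
        rw [fromT_tprod] at h4
        simp only [incP_mk] at h4
        rw [← map_prod, ← h3, toT_mk] at h4
        exact h4
      rw [h2, PiTensorProduct.map_tprod]
      congr 1
      funext i
      by_cases hi : i = l
      · subst hi
        rw [Function.update_self]
        refine hπ2 i _ ?_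
        refine (isHomogeneous_monomial (n := wt i s) _ ?_).totalDegree_le.trans hs
        simp [wt, Finsupp.degree_eq_sum]
      · rw [Function.update_of_ne hi, LinearMap.id_apply]
  have hall : ∀ t : Finset κ, PiTensorProduct.map (R := k)
      (fun i => if i ∈ t then π i else LinearMap.id) (toT Ω ξ a) = toT Ω ξ a := by
    intro t
    induction t using Finset.induction_on with
    | empty =>
      simp
    | insert l t hl ih =>
      have h1 : (fun i => if i ∈ insert l t then π i else LinearMap.id)
          = fun i => (Function.update (fun i => (LinearMap.id :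
            Fac (Ω i) (ξ i) →ₗ[k] Fac (Ω i) (ξ i))) l (π l) i).comp
            (if i ∈ t then π i else LinearMap.id) := by
        funext i
        by_cases hi : i = l
        · subst hi
          simp [hl]
        · simp [hi]
      rw [h1, PiTensorProduct.map_comp, LinearMap.comp_apply, ih, hfix]
  have hfin := hall Finset.univ
  simp only [Finset.mem_univ, if_true] at hfin
  -- every element of the image of the projection is good
  have hgood : ∀ t : TT Ω ξ, ∃ p : MvPolynomial (κ × Fin 3) k, (∀ l, p ∈ FR k l (n l)) ∧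
      Ideal.Quotient.mk (JJ Ω ξ) p = fromT Ω ξ (PiTensorProduct.map (R := k) (fun i => π i) t) := by
    intro t
    induction t using PiTensorProduct.induction_on with
    | smul_tprod c b =>
      choose q hq1 hq2 using fun i => hπ1 i (b i)
      refine ⟨c • ∏ i, inc i (q i), fun l => Submodule.smul_mem _ _ ?_, ?_⟩
      · rw [← Finset.mul_prod_erase _ _ (Finset.mem_univ l)]
        have h2 : ∏ i ∈ Finset.univ.erase l, inc i (q i) ∈ FR k l 0 := by
          refine Finset.prod_induction _ (fun p => p ∈ FR k l 0) (fun a b ha hb => FR_mul ha hb)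
            (FR_one l) fun i hi => inc_mem_FR_ne (Finset.ne_of_mem_erase hi) _
        exact FR_mul (inc_mem_FR_self (hq1 l)) h2
      · rw [LinearMap.map_smul, AlgHom.map_smul_of_tower, PiTensorProduct.map_tprod, fromT_tprod]
        simp only [← hq2, incP_mk]
        rw [← map_prod]
        rfl
    | add x y hx hy =>
      obtain ⟨p, hp, hpx⟩ := hx
      obtain ⟨q, hq, hqy⟩ := hy
      refine ⟨p + q, fun l => add_mem (hp l) (hq l), ?_⟩
      rw [map_add, map_add, map_add, hpx, hqy]
  obtain ⟨p, hp, hpa⟩ := hgood (toT Ω ξ a)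
  refine ⟨p, hp, ?_⟩
  rw [hpa, hfin, fromT_toT]

end Simult

end K4H17.DX
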