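import Pool.Agent.K4H17.DX.Steps
import Pool.Agent.K4H17.DX.Simult

set_option maxHeartbeats 400000
set_option linter.unusedSectionVars false

namespace K4H17.DX

open MvPolynomial

section Main

variable {k : Type*} [Field k] {κ : Type} [Fintype κ] [DecidableEq κ]
  {Ω : κ → MvPolynomial (Fin 3) k} {ξ : κ → k} {e : κ → ℕ}

variable (Ω ξ) in
/-- `1, x, y, z` of one factor. -/
noncomputable def aff (i : κ) (o : Option (Fin 3)) : PP Ω ξ := o.elim 1 (gx Ω ξ i)

lemma mem_aff (j : κ) {p : MvPolynomial (κ × Fin 3) k}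
    (hp : ∀ l, p ∈ FR k l (if l = j then 1 else 0)) :
    Ideal.Quotient.mk (JJ Ω ξ) p ∈ Submodule.span k (Set.range (aff Ω ξ j)) := by
  rw [p.as_sum, map_sum]
  refine Submodule.sum_mem _ fun s hs => ?_
  have hw : ∀ l, wt l s ≤ if l = j then 1 else 0 := fun l => mem_FR.mp (hp l) s hs
  have h0 : monomial s (coeff s p) = coeff s p • monomial s (1 : k) := by
    rw [smul_monomial, smul_eq_mul, mul_one]
  have h1 : Ideal.Quotient.mk (JJ Ω ξ) (coeff s p • monomial s (1 : k))
      = coeff s p • Ideal.Quotient.mk (JJ Ω ξ) (monomial s (1 : k)) := rfl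
  rw [h0, h1]
  refine Submodule.smul_mem _ _ (Submodule.subset_span ?_)
  have hle : ∀ l m, s (l, m) ≤ wt l s := fun l m => Finset.single_le_sum
    (f := fun m => s (l, m)) (fun i _ => Nat.zero_le _) (Finset.mem_univ m)
  have hne : ∀ l m, l ≠ j → s (l, m) = 0 := by
    intro l m hl
    have h2 := hw l
    rw [if_neg hl] at h2
    have := hle l m
    omega
  have hwj : s (j, 0) + s (j, 1) + s (j, 2) ≤ 1 := by
    have h2 := hw j
    rw [if_pos rfl, wt, Fin.sum_univ_three] at h2
    exact h2
  by_cases hs0 : s = 0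
  · refine ⟨none, ?_⟩
    rw [hs0]
    simp only [aff, Option.elim_none]
    exact (map_one (Ideal.Quotient.mk (JJ Ω ξ))).symm
  · obtain ⟨⟨l, m⟩, hlm⟩ : ∃ a, s a ≠ 0 := by
      by_contra hcon
      push Not at hcon
      exact hs0 (Finsupp.ext hcon)
    have hl : l = j := by
      by_contra hl
      exact hlm (hne l m hl)
    subst hl
    refine ⟨some m, ?_⟩
    have h3 : s = Finsupp.single (l, m) 1 := by
      ext ⟨l', m'⟩
      rw [Finsupp.single_apply]
      by_cases hl' : l' = l
      · subst hl'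
        by_cases hm' : m = m'
        · subst hm'
          rw [if_pos rfl]
          have e1 : s (l', m) ≠ 0 := hlm
          have e2 := hwj
          revert e1
          fin_cases m <;> intro e1 <;> simp at e1 ⊢ <;> omega
        · rw [if_neg (by intro h; exact hm' (congrArg Prod.snd h))]
          have e1 : s (l', m) ≠ 0 := hlm
          have e2 := hwj
          revert e1 hm'
          fin_cases m <;> fin_cases m' <;> intro hm' e1 <;> simp at hm' e1 ⊢ <;> omega
      · rw [if_neg (by intro h; exact hl' (congrArg Prod.fst h).symm)]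
        exact hne _ _ hl'
    rw [h3]
    rfl

lemma linearIndependent_aff (he : ∀ i, 2 ≤ e i) (hΩ : ∀ i, IsPot (Ω i) (e i)) (i : κ) :
    LinearIndependent k (aff Ω ξ i) := by
  rw [Fintype.linearIndependent_iff]
  intro c hc
  rw [Fintype.sum_option] at hc
  set p : MvPolynomial (Fin 3) k := C (c none) + ∑ m, C (c (some m)) * X m with hp
  have h1 : Ideal.Quotient.mk (JJ Ω ξ) (inc i p) = 0 := by
    rw [← hc, hp]
    simp only [map_add, map_sum, map_mul, aff, Option.elim_none, Option.elim_some, gx]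
    have hC : ∀ a : k, inc i (C a) = (C a : MvPolynomial (κ × Fin 3) k) := fun a => by simp [inc]
    have hX : ∀ m, inc i (X m) = (X (i, m) : MvPolynomial (κ × Fin 3) k) := fun m => by simp [inc]
    simp only [hC, hX]
    congr 1
    · change _ = Ideal.Quotient.mk (JJ Ω ξ) (c none • 1)
      rw [← C_mul', mul_one]
    · refine Finset.sum_congr rfl fun m _ => ?_
      rw [← map_mul, C_mul']
      rfl
  have h2 : p.totalDegree ≤ 1 := by
    refine (totalDegree_add _ _).trans (max_le (by simp) (totalDegree_finsetSum_le fun m _ => ?_))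
    exact (isHomogeneous_C_mul_X _ _).totalDegree_le
  have h3 := affine_indep he hΩ i (by have := he i; omega) h1
  have hcoef : ∀ m, coeff (Finsupp.single m 1) p = c (some m) := by
    intro m
    rw [hp, coeff_add, coeff_sum, coeff_C, if_neg (by
      intro h; have := congrArg (fun f => f m) h; simp at this), zero_add,
      Finset.sum_eq_single m]
    · rw [coeff_C_mul]; simp
    · intro b _ hb
      rw [coeff_C_mul, coeff_X', if_neg, mul_zero]
      intro h
      rw [Finsupp.single_left_inj (by norm_num)] at h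
      exact hb h
    · simp
  have hcoef0 : coeff 0 p = c none := by
    rw [hp, coeff_add, coeff_sum, coeff_zero_C, Finset.sum_eq_zero, add_zero]
    intro m _
    rw [coeff_C_mul, coeff_zero_X, mul_zero]
  rintro (_ | m)
  · rw [← hcoef0, h3, coeff_zero]
  · rw [← hcoef, h3, coeff_zero]

/-- The Dixmier property of the model. -/
theorem dixmier_model (he : ∀ i, 4 ≤ e i) (hΩ : ∀ i, IsPot (Ω i) (e i))
    (φ : PP Ω ξ →ₐ[k] PP Ω ξ) (hinj : Function.Injective φ)
    (hφ : ∀ a b, φ (br Ω ξ a b) = br Ω ξ (φ a) (φ b)) : Function.Surjective φ := by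
  have he1 : ∀ i, 1 ≤ e i := fun i => by have := he i; omega
  have he2 : ∀ i, 2 ≤ e i := fun i => by have := he i; omega
  have he3 : ∀ i, 3 ≤ e i := fun i => by have := he i; omega
  have hdom : IsDomain (PP Ω ξ) := isDomain_PP he1 hΩ
  choose dj hdj1 hdj2 using fun j => exists_deg (ξ := ξ) he1 hΩ j
  have hdj : ∀ j, DegFn j (dj j) := fun j => ⟨hdj1 j, hdj2 j⟩
  have hg0 : ∀ i m, gx Ω ξ i m ≠ 0 := fun i m h0 =>
    gx_notMem (ξ := ξ) he2 hΩ i m (by rw [h0]; exact Submodule.zero_mem _)
  have hX0 : ∀ i m, φ (gx Ω ξ i m) ≠ 0 := fun i m h => hg0 i m (hinj (by rw [h, map_zero]))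
  set K : κ → κ → ℕ := fun i j => Finset.univ.sup fun m => dj j (φ (gx Ω ξ i m)) with hKdef
  have hK : ∀ i j m, dj j (φ (gx Ω ξ i m)) ≤ K i j := fun i j m =>
    Finset.le_sup (f := fun m => dj j (φ (gx Ω ξ i m))) (Finset.mem_univ m)
  have hKm : ∀ i j, ∃ m, dj j (φ (gx Ω ξ i m)) = K i j := by
    intro i j
    obtain ⟨m, _, hm⟩ := Finset.exists_mem_eq_sup Finset.univ Finset.univ_nonempty
      fun m => dj j (φ (gx Ω ξ i m))
    exact ⟨m, hm.symm⟩
  have hev : ∀ i (q : MvPolynomial (Fin 3) k), aeval (fun m => φ (gx Ω ξ i m)) q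
      = φ (Ideal.Quotient.mk _ (inc i q)) := by
    intro i q
    have : (aeval (fun m => φ (gx Ω ξ i m)) : MvPolynomial (Fin 3) k →ₐ[k] PP Ω ξ)
        = φ.comp ((Ideal.Quotient.mkₐ k (JJ Ω ξ)).comp (inc i)) := by
      apply algHom_ext
      intro m
      simp [inc, gx]
    rw [this]; rfl
  -- the degree inequality
  have h2 : ∀ j, ∑ i, (e i - 3) * K i j ≤ e j - 3 := by
    intro j
    have h1 := fun i => step1 (hdj j) (hΩ i) (fun m => φ (gx Ω ξ i m)) (K i j) (hK i j)
      (by obtain ⟨m, hm⟩ := hKm i j; exact ⟨m, hX0 i m, hm⟩)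
    choose m hm0 hm using h1
    refine step2 he3 hΩ (hdj j)
      (fun a => φ (gx Ω ξ a.2 (if a.1 = 0 then m a.2 + 1 else m a.2 + 2))) (fun i => K i j)
      (fun a => ((hdj j).le_iff _ _).mp (hK _ _ _))
      (fun i => aeval (fun m => φ (gx Ω ξ i m)) (pderiv (m i) (Ω i))) hm0 hm ?_
    ext ⟨s, i⟩ ⟨s', i'⟩
    rw [Matrix.of_apply, Matrix.blockDiagonal_apply, ← hφ]
    simp only
    by_cases hi : i = i'
    · subst hi
      rw [if_pos rfl, hev]
      have h3 := br_gx_gx Ω ξ i (m i)
      fin_cases s <;> fin_cases s'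
      · simp [br_self]
      · simp only [Fin.zero_eta, Fin.mk_one, if_true, Fin.isValue, one_ne_zero, if_false]
        rw [h3]
        rfl
      · simp only [Fin.zero_eta, Fin.mk_one, if_true, Fin.isValue, one_ne_zero, if_false]
        rw [br_swap, h3, map_neg]
        rfl
      · simp [br_self]
    · rw [if_neg hi, br_gx_ne Ω ξ hi, map_zero]
  have hcomm : ∀ c : k, φ (algebraMap k (PP Ω ξ) c) = algebraMap k (PP Ω ξ) c :=
    fun c => φ.commutes c
  have ha : ∀ i, ∃ j, 0 < K i j := by
    intro i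
    by_contra hcon
    push Not at hcon
    obtain ⟨p, hp, hpa⟩ := exists_simultaneous (Ω := Ω) (ξ := ξ) (fun _ => 0)
      (a := φ (gx Ω ξ i 0))
      (fun j => ((hdj j).le_iff _ _).mp ((hK i j 0).trans (hcon j)))
    have hpc : p = C (coeff 0 p) := by
      rw [← totalDegree_eq_zero_iff_eq_C]
      refine Nat.le_zero.mp (Finset.sup_le fun s hs => ?_)
      have : s = 0 := by
        ext ⟨l, m⟩
        have h4 := mem_FR.mp (hp l) s hs
        have h5 : s (l, m) ≤ wt l s := Finset.single_le_sum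
          (f := fun m => s (l, m)) (fun i _ => Nat.zero_le _) (Finset.mem_univ m)
        simp only [Finsupp.coe_zero, Pi.zero_apply]
        omega
      rw [this]; simp
    have h6 : gx Ω ξ i 0 = algebraMap k (PP Ω ξ) (coeff 0 p) := by
      apply hinj
      rw [hcomm, ← hpa]
      conv_lhs => rw [hpc]
      rfl
    apply gx_notMem (ξ := ξ) he2 hΩ i 0
    rw [h6]
    exact mk_mem_FP (FR_C i (coeff 0 p))
  obtain ⟨τ, hτ, hKτ⟩ := step3 he K h2 ha
  -- step 4
  have hrange : ∀ j m, gx Ω ξ j m ∈ LinearMap.range φ.toLinearMap := by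
    intro j m
    obtain ⟨i, rfl⟩ := hτ.2 j
    have hw : ∀ o, φ (aff Ω ξ i o) ∈ Submodule.span k (Set.range (aff Ω ξ (τ i))) := by
      rintro (_ | m)
      · simp only [aff, Option.elim_none, map_one]
        exact Submodule.subset_span ⟨none, rfl⟩
      · simp only [aff, Option.elim_some]
        obtain ⟨p, hp, hpa⟩ := exists_simultaneous (Ω := Ω) (ξ := ξ)
          (fun l => if l = τ i then 1 else 0) (a := φ (gx Ω ξ i m))
          (fun l => ((hdj l).le_iff _ _).mp ((hK i l m).trans (hKτ i l).le))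
        rw [← hpa]
        exact mem_aff (τ i) hp
    have hLI : LinearIndependent k (fun o => φ (aff Ω ξ i o)) :=
      (linearIndependent_aff he2 hΩ i).map' φ.toLinearMap
        (LinearMap.ker_eq_bot.mpr hinj)
    have hle : Submodule.span k (Set.range fun o => φ (aff Ω ξ i o))
        ≤ Submodule.span k (Set.range (aff Ω ξ (τ i))) := by
      rw [Submodule.span_le]
      rintro _ ⟨o, rfl⟩
      exact hw o
    have hfin : Module.finrank k (Submodule.span k (Set.range (aff Ω ξ (τ i))))
        ≤ Module.finrank k (Submodule.span k (Set.range fun o => φ (aff Ω ξ i o))) := by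
      rw [finrank_span_eq_card hLI]
      exact finrank_range_le_card _
    have hfd : FiniteDimensional k (Submodule.span k (Set.range (aff Ω ξ (τ i)))) :=
      FiniteDimensional.span_of_finite k (Set.finite_range _)
    have heq := Submodule.eq_of_le_of_finrank_le hle hfin
    have h7 : gx Ω ξ (τ i) m ∈ Submodule.span k (Set.range (aff Ω ξ (τ i))) :=
      Submodule.subset_span ⟨some m, rfl⟩
    rw [← heq] at h7
    refine (Submodule.span_le.mpr ?_) h7
    rintro _ ⟨o, rfl⟩
    exact ⟨aff Ω ξ i o, rfl⟩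
  intro a
  obtain ⟨p, rfl⟩ := Ideal.Quotient.mk_surjective a
  induction p using MvPolynomial.induction_on with
  | C c => exact ⟨algebraMap k _ c, hcomm c⟩
  | add p q hp hq =>
    obtain ⟨x, hx⟩ := hp
    obtain ⟨y, hy⟩ := hq
    exact ⟨x + y, by rw [map_add, map_add, hx, hy]⟩
  | mul_X p i hp =>
    obtain ⟨x, hx⟩ := hp
    obtain ⟨y, hy⟩ := hrange i.1 i.2
    refine ⟨x * y, ?_⟩
    rw [map_mul, map_mul, hx]
    have : φ y = gx Ω ξ i.1 i.2 := hy
    rw [this]
    rfl

end Main

end K4H17.DX
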