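import Pool.Agent.K4H17.DX.Deg

set_option maxHeartbeats 400000
set_option linter.unusedSectionVars false

namespace K4H17.DX

open MvPolynomial

section Weights

/-- Evaluation of a monomial in a filtered algebra. -/
lemma aeval_monomial_mem {k σ A : Type*} [CommRing k] [CommRing A] [Algebra k A]
    (G : ℕ → A → Prop) (h1 : G 0 1)
    (hmul : ∀ m n a b, G m a → G n b → G (m + n) (a * b)) (g : σ → A) (w : σ → ℕ)
    (hg : ∀ i, G (w i) (g i)) (s : σ →₀ ℕ) :
    G (s.sum fun i e => e * w i) (aeval g (monomial s (1 : k))) := by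
  classical
  rw [aeval_monomial, map_one, one_mul, Finsupp.prod, Finsupp.sum]
  have hpow : ∀ i e, G (e * w i) (g i ^ e) := by
    intro i e
    induction e with
    | zero => simpa using h1
    | succ e ih =>
      rw [pow_succ, Nat.succ_mul]
      exact hmul _ _ _ _ ih (hg i)
  induction s.support using Finset.induction_on with
  | empty => simpa using h1
  | insert a t ha ih =>
    rw [Finset.prod_insert ha, Finset.sum_insert ha]
    exact hmul _ _ _ _ (hpow _ _) ih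

variable {k : Type*} [Field k] {κ : Type*} [Fintype κ] [DecidableEq κ]

/-- weight of a monomial in the `j`-th block -/
def wt (j : κ) (s : κ × Fin 3 →₀ ℕ) : ℕ := ∑ m, s (j, m)

lemma wt_add (j : κ) (s t : κ × Fin 3 →₀ ℕ) : wt j (s + t) = wt j s + wt j t := by
  simp [wt, Finset.sum_add_distrib]

lemma wt_zero (j : κ) : wt j (0 : κ × Fin 3 →₀ ℕ) = 0 := by simp [wt]

lemma wt_single_self (j : κ) (m : Fin 3) (c : ℕ) :
    wt j (Finsupp.single (j, m) c : κ × Fin 3 →₀ ℕ) = c := by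
  simp [wt, Finsupp.single_apply]

lemma wt_single_ne {j l : κ} (h : l ≠ j) (m : Fin 3) (c : ℕ) :
    wt j (Finsupp.single (l, m) c : κ × Fin 3 →₀ ℕ) = 0 := by
  simp [wt, Finsupp.single_apply, h]

variable (k) in
/-- Polynomials of degree at most `n` in the `j`-th block. -/
noncomputable def FR (j : κ) (n : ℕ) : Submodule k (MvPolynomial (κ × Fin 3) k) :=
  restrictSupport k {s | wt j s ≤ n}

lemma mem_FR {j : κ} {n : ℕ} {p : MvPolynomial (κ × Fin 3) k} :
    p ∈ FR k j n ↔ ∀ s ∈ p.support, wt j s ≤ n := by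
  rw [FR, mem_restrictSupport_iff]
  rfl

lemma FR_mono {j : κ} {m n : ℕ} (h : m ≤ n) : FR k j m ≤ FR k j n := by
  intro p hp
  rw [mem_FR] at hp ⊢
  exact fun s hs => (hp s hs).trans h

lemma monomial_mem_FR {j : κ} {n : ℕ} {s : κ × Fin 3 →₀ ℕ} (h : wt j s ≤ n) (c : k) :
    monomial s c ∈ FR k j n := by
  classical
  rw [mem_FR]
  intro t ht
  have := support_monomial_subset ht
  rw [Finset.mem_singleton] at this
  rw [this]
  exact h

lemma FR_mul {j : κ} {m n : ℕ} {p q : MvPolynomial (κ × Fin 3) k} (hp : p ∈ FR k j m)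
    (hq : q ∈ FR k j n) : p * q ∈ FR k j (m + n) := by
  classical
  rw [mem_FR] at hp hq ⊢
  intro s hs
  obtain ⟨a, ha, b, hb, rfl⟩ := Finset.mem_add.mp (support_mul p q hs)
  rw [wt_add]
  exact add_le_add (hp a ha) (hq b hb)

lemma FR_C (j : κ) (c : k) : (C c : MvPolynomial (κ × Fin 3) k) ∈ FR k j 0 :=
  monomial_mem_FR (by rw [wt_zero]) c

lemma FR_one (j : κ) : (1 : MvPolynomial (κ × Fin 3) k) ∈ FR k j 0 := FR_C j 1

lemma FR_X_self (j : κ) (m : Fin 3) : (X (j, m) : MvPolynomial (κ × Fin 3) k) ∈ FR k j 1 :=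
  monomial_mem_FR (by rw [wt_single_self]) 1

lemma FR_X_ne {j l : κ} (h : l ≠ j) (m : Fin 3) :
    (X (l, m) : MvPolynomial (κ × Fin 3) k) ∈ FR k j 0 :=
  monomial_mem_FR (by rw [wt_single_ne h]) 1

lemma FR_induction {N : Type*} [AddCommGroup N] [Module k N]
    (L : MvPolynomial (κ × Fin 3) k →ₗ[k] N) (W : Submodule k N) {j : κ} {n : ℕ}
    (h : ∀ s, wt j s ≤ n → L (monomial s 1) ∈ W) {p : MvPolynomial (κ × Fin 3) k}
    (hp : p ∈ FR k j n) : L p ∈ W := by
  rw [mem_FR] at hp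
  rw [p.as_sum, map_sum]
  refine Submodule.sum_mem _ fun s hs => ?_
  have : monomial s (coeff s p) = coeff s p • monomial s (1 : k) := by
    rw [smul_monomial, smul_eq_mul, mul_one]
  rw [this, map_smul]
  exact Submodule.smul_mem _ _ (h s (hp s hs))

lemma FR_pderiv_ne {j l : κ} (h : l ≠ j) (m : Fin 3) {n : ℕ} {p : MvPolynomial (κ × Fin 3) k}
    (hp : p ∈ FR k j n) : pderiv (l, m) p ∈ FR k j n := by
  refine FR_induction (pderiv (l, m)).toLinearMap (FR k j n) (fun s hs => ?_) hp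
  change pderiv (l, m) (monomial s 1) ∈ _
  rw [pderiv_monomial]
  refine monomial_mem_FR (le_trans ?_ hs) _
  unfold wt
  refine Finset.sum_le_sum fun i _ => ?_
  simp

lemma FR_pderiv_self {j : κ} (m : Fin 3) {n : ℕ} {p : MvPolynomial (κ × Fin 3) k}
    (hp : p ∈ FR k j n) : pderiv (j, m) p ∈ FR k j (n - 1) := by
  refine FR_induction (pderiv (j, m)).toLinearMap (FR k j (n - 1)) (fun s hs => ?_) hp
  change pderiv (j, m) (monomial s 1) ∈ _
  rw [pderiv_monomial]
  by_cases h0 : s (j, m) = 0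
  · rw [h0]; simp
  · refine monomial_mem_FR ?_ _
    have h1 : s = (s - Finsupp.single (j, m) 1) + Finsupp.single (j, m) 1 := by
      ext i
      simp only [Finsupp.coe_add, Finsupp.coe_tsub, Pi.add_apply, Pi.sub_apply]
      rw [Finsupp.single_apply]
      split_ifs with hi
      · subst hi; omega
      · simp
    have h2 := congrArg (wt j) h1
    rw [wt_add, wt_single_self] at h2
    omega

lemma FR_pderiv_zero {j : κ} (m : Fin 3) {p : MvPolynomial (κ × Fin 3) k}
    (hp : p ∈ FR k j 0) : pderiv (j, m) p = 0 := by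
  have := FR_induction (pderiv (j, m)).toLinearMap (⊥ : Submodule k _) (fun s hs => ?_) hp
  · simpa using this
  · change pderiv (j, m) (monomial s 1) ∈ _
    rw [pderiv_monomial]
    have h0 : s (j, m) = 0 := by
      have : s (j, m) ≤ wt j s := Finset.single_le_sum (f := fun m => s (j, m))
        (fun i _ => Nat.zero_le _) (Finset.mem_univ m)
      omega
    rw [h0]; simp

end Weights

section Model

variable {k : Type*} [Field k] {κ : Type*}

/-- inclusion of the `l`-th block of variables -/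
noncomputable def inc (l : κ) : MvPolynomial (Fin 3) k →ₐ[k] MvPolynomial (κ × Fin 3) k :=
  rename fun m => (l, m)

variable (Ω : κ → MvPolynomial (Fin 3) k) (ξ : κ → k)

/-- The ideal generated by all `Ω_l(x_l) - ξ_l`. -/
noncomputable def JJ : Ideal (MvPolynomial (κ × Fin 3) k) :=
  Ideal.span (Set.range fun l => inc l (Ω l) - C (ξ l))

/-- The concrete model of the tensor product. -/
abbrev PP : Type _ := MvPolynomial (κ × Fin 3) k ⧸ JJ Ω ξ

lemma inc_mem_FR_ne [Fintype κ] [DecidableEq κ] {j l : κ} (h : l ≠ j)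
    (p : MvPolynomial (Fin 3) k) : inc l p ∈ FR k j 0 := by
  rw [p.as_sum, map_sum]
  refine Submodule.sum_mem _ fun s hs => ?_
  rw [inc, rename_monomial]
  refine monomial_mem_FR ?_ _
  unfold wt
  rw [Finset.sum_eq_zero]
  intro m _
  rw [Finsupp.mapDomain_of_notMem_range]
  rintro ⟨a, ha⟩
  exact h (by simpa using congrArg Prod.fst ha)

lemma inc_mem_FR_self [Fintype κ] [DecidableEq κ] {j : κ} {n : ℕ}
    {p : MvPolynomial (Fin 3) k} (hp : p.totalDegree ≤ n) : inc j p ∈ FR k j n := by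
  rw [p.as_sum, map_sum]
  refine Submodule.sum_mem _ fun s hs => ?_
  rw [inc, rename_monomial]
  refine monomial_mem_FR ?_ _
  have h1 := le_totalDegree hs
  refine le_trans ?_ hp
  refine le_trans (le_of_eq ?_) h1
  unfold wt
  rw [Finsupp.sum_fintype _ _ (by simp)]
  refine Finset.sum_congr rfl fun m _ => ?_
  rw [Finsupp.mapDomain_apply]
  intro a b hab
  simpa using hab

/-- The remaining factors. -/
abbrev BB (j : κ) : Type _ := PP (fun i : {i // i ≠ j} => Ω i) (fun i => ξ i)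

/-- `BB[x,y,z] / (Ω_j - ξ_j)`. -/
abbrev QQ (j : κ) : Type _ :=
  quo (map (algebraMap k (BB Ω ξ j)) (Ω j)) (algebraMap k (BB Ω ξ j) (ξ j))

variable [DecidableEq κ]

/-- images of the generators -/
noncomputable def gens (j : κ) : κ × Fin 3 → MvPolynomial (Fin 3) (BB Ω ξ j) := fun p =>
  if h : p.1 = j then X p.2 else C (Ideal.Quotient.mk _ (X (⟨p.1, h⟩, p.2)))

/-- the map on polynomials -/
noncomputable def tau (j : κ) :
    MvPolynomial (κ × Fin 3) k →ₐ[k] MvPolynomial (Fin 3) (BB Ω ξ j) :=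
  aeval (gens Ω ξ j)

lemma tau_inc_self (j : κ) (p : MvPolynomial (Fin 3) k) :
    tau Ω ξ j (inc j p) = map (algebraMap k (BB Ω ξ j)) p := by
  have : (tau Ω ξ j).comp (inc j) = mapAlgHom (Algebra.ofId k (BB Ω ξ j)) := by
    apply algHom_ext
    intro m
    simp [tau, inc, gens]
  exact congrArg (fun f => f p) this

lemma tau_inc_ne {j l : κ} (h : l ≠ j) (p : MvPolynomial (Fin 3) k) :
    tau Ω ξ j (inc l p) = C (Ideal.Quotient.mk _ (inc (⟨l, h⟩ : {i // i ≠ j}) p)) := by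
  have : (tau Ω ξ j).comp (inc l) = ((Algebra.ofId (BB Ω ξ j)
      (MvPolynomial (Fin 3) (BB Ω ξ j))).restrictScalars k).comp
      ((Ideal.Quotient.mkₐ k _).comp (inc (⟨l, h⟩ : {i // i ≠ j}))) := by
    apply algHom_ext
    intro m
    simp [tau, inc, gens, h, Algebra.ofId_apply]
  have h2 := congrArg (fun f => f p) this
  simpa [Algebra.ofId_apply] using h2

lemma tau_JJ (j : κ) (a : MvPolynomial (κ × Fin 3) k) (ha : a ∈ JJ Ω ξ) :
    tau Ω ξ j a ∈ Ideal.span {map (algebraMap k (BB Ω ξ j)) (Ω j)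
      - C (algebraMap k (BB Ω ξ j) (ξ j))} := by
  have h1 : JJ Ω ξ ≤ Ideal.comap (tau Ω ξ j) (Ideal.span {map (algebraMap k (BB Ω ξ j)) (Ω j)
      - C (algebraMap k (BB Ω ξ j) (ξ j))}) := by
    rw [JJ, Ideal.span_le]
    rintro _ ⟨l, rfl⟩
    simp only [SetLike.mem_coe, Ideal.mem_comap, map_sub]
    have hC : tau Ω ξ j (C (ξ l)) = C (algebraMap k (BB Ω ξ j) (ξ l)) := by
      have : (C (ξ l) : MvPolynomial (κ × Fin 3) k) = algebraMap k _ (ξ l) := rfl
      rw [this, AlgHom.commutes]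
      rfl
    rw [hC]
    by_cases h : l = j
    · subst h
      rw [tau_inc_self]
      exact Ideal.mem_span_singleton_self _
    · rw [tau_inc_ne Ω ξ h, ← map_sub]
      have h2 : Ideal.Quotient.mk (JJ (fun i : {i // i ≠ j} => Ω i) (fun i => ξ i))
          (inc (⟨l, h⟩ : {i // i ≠ j}) (Ω l)) - algebraMap k (BB Ω ξ j) (ξ l) = 0 := by
        have h3 : algebraMap k (BB Ω ξ j) (ξ l) = Ideal.Quotient.mk
          (JJ (fun i : {i // i ≠ j} => Ω i) (fun i => ξ i)) (C (ξ l)) := rfl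
        rw [h3, ← map_sub, Ideal.Quotient.eq_zero_iff_mem]
        exact Ideal.subset_span ⟨⟨l, h⟩, rfl⟩
      rw [h2, map_zero]
      exact Ideal.zero_mem _
  exact h1 ha

/-- The map from the model to `BB[x,y,z]/(Ω_j - ξ_j)`. -/
noncomputable def toB (j : κ) : PP Ω ξ →ₐ[k] QQ Ω ξ j :=
  Ideal.Quotient.liftₐ (JJ Ω ξ) ((Ideal.Quotient.mkₐ k _).comp (tau Ω ξ j)) fun a ha => by
    rw [AlgHom.comp_apply, Ideal.Quotient.mkₐ_eq_mk, Ideal.Quotient.eq_zero_iff_mem]
    exact tau_JJ Ω ξ j a ha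

lemma toB_mk (j : κ) (p : MvPolynomial (κ × Fin 3) k) :
    toB Ω ξ j (Ideal.Quotient.mk _ p) = Ideal.Quotient.mk _ (tau Ω ξ j p) := rfl

/-- The other factors inside the model. -/
noncomputable def beta (j : κ) : BB Ω ξ j →ₐ[k] PP Ω ξ :=
  Ideal.Quotient.liftₐ _ ((Ideal.Quotient.mkₐ k (JJ Ω ξ)).comp
    (rename fun p : {i // i ≠ j} × Fin 3 => ((p.1 : κ), p.2))) fun a ha => by
    rw [AlgHom.comp_apply, Ideal.Quotient.mkₐ_eq_mk, Ideal.Quotient.eq_zero_iff_mem]
    have h1 : JJ (fun i : {i // i ≠ j} => Ω i) (fun i => ξ i) ≤ Ideal.comap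
        (rename fun p : {i // i ≠ j} × Fin 3 => ((p.1 : κ), p.2)) (JJ Ω ξ) := by
      rw [JJ, Ideal.span_le]
      rintro _ ⟨l, rfl⟩
      simp only [SetLike.mem_coe, Ideal.mem_comap, map_sub, inc, rename_rename, rename_C]
      exact Ideal.subset_span ⟨l, rfl⟩
    exact h1 ha

/-- Back from polynomials over the other factors. -/
noncomputable def back (j : κ) : MvPolynomial (Fin 3) (BB Ω ξ j) →+* PP Ω ξ :=
  eval₂Hom (beta Ω ξ j : BB Ω ξ j →+* PP Ω ξ) fun m => Ideal.Quotient.mk _ (X (j, m))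

lemma back_tau (j : κ) (p : MvPolynomial (κ × Fin 3) k) :
    back Ω ξ j (tau Ω ξ j p) = Ideal.Quotient.mk _ p := by
  have : (back Ω ξ j).comp (tau Ω ξ j : MvPolynomial (κ × Fin 3) k →+* _)
      = Ideal.Quotient.mk (JJ Ω ξ) := by
    apply ringHom_ext
    · intro c
      have h1 : tau Ω ξ j (C c) = C (algebraMap k (BB Ω ξ j) c) := by
        have : (C c : MvPolynomial (κ × Fin 3) k) = algebraMap k _ c := rfl
        rw [this, AlgHom.commutes]
        rfl
      simp only [RingHom.comp_apply, RingHom.coe_coe, h1, back, eval₂Hom_C, AlgHom.commutes]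
      rfl
    · rintro ⟨l, m⟩
      simp only [RingHom.comp_apply, RingHom.coe_coe, tau, aeval_X, gens]
      split_ifs with h
      · subst h
        simp [back]
      · simp only [back, eval₂Hom_C, RingHom.coe_coe, beta]
        change Ideal.Quotient.mk _ (rename _ (X _)) = _
        rw [rename_X]
  exact congrArg (fun f => f p) this

lemma back_omega (j : κ) : back Ω ξ j (map (algebraMap k (BB Ω ξ j)) (Ω j)
      - C (algebraMap k (BB Ω ξ j) (ξ j))) = 0 := by
  rw [← tau_inc_self, map_sub, back_tau]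
  have h1 : back Ω ξ j (C (algebraMap k (BB Ω ξ j) (ξ j)))
      = Ideal.Quotient.mk _ (C (ξ j)) := by
    simp only [back, eval₂Hom_C, RingHom.coe_coe, AlgHom.commutes]
    rfl
  rw [h1, ← map_sub, Ideal.Quotient.eq_zero_iff_mem]
  exact Ideal.subset_span ⟨j, rfl⟩

lemma back_of_mem (j : κ) {f : MvPolynomial (Fin 3) (BB Ω ξ j)}
    (hf : f ∈ Ideal.span {map (algebraMap k (BB Ω ξ j)) (Ω j)
      - C (algebraMap k (BB Ω ξ j) (ξ j))}) : back Ω ξ j f = 0 := by
  rw [Ideal.mem_span_singleton] at hf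
  obtain ⟨g, rfl⟩ := hf
  rw [map_mul, back_omega, zero_mul]

lemma toB_injective (j : κ) : Function.Injective (toB Ω ξ j) := by
  rw [injective_iff_map_eq_zero]
  intro a ha
  obtain ⟨p, rfl⟩ := Ideal.Quotient.mk_surjective a
  rw [toB_mk, Ideal.Quotient.eq_zero_iff_mem] at ha
  rw [← back_tau]
  exact back_of_mem Ω ξ j ha

variable [Fintype κ]

/-- Elements of degree at most `n` in the `j`-th factor. -/
noncomputable def FP (j : κ) (n : ℕ) : Submodule k (PP Ω ξ) :=
  (FR k j n).map (Ideal.Quotient.mkₐ k (JJ Ω ξ)).toLinearMap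

variable {Ω ξ}

lemma mem_FP {j : κ} {n : ℕ} {a : PP Ω ξ} :
    a ∈ FP Ω ξ j n ↔ ∃ p ∈ FR k j n, Ideal.Quotient.mk _ p = a := Iff.rfl

lemma mk_mem_FP {j : κ} {n : ℕ} {p : MvPolynomial (κ × Fin 3) k} (hp : p ∈ FR k j n) :
    Ideal.Quotient.mk _ p ∈ FP Ω ξ j n := ⟨p, hp, rfl⟩

lemma FP_mono {j : κ} {m n : ℕ} (h : m ≤ n) : FP Ω ξ j m ≤ FP Ω ξ j n :=
  Submodule.map_mono (FR_mono h)

lemma FP_mul {j : κ} {m n : ℕ} {a b : PP Ω ξ} (ha : a ∈ FP Ω ξ j m) (hb : b ∈ FP Ω ξ j n) :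
    a * b ∈ FP Ω ξ j (m + n) := by
  obtain ⟨p, hp, rfl⟩ := ha
  obtain ⟨q, hq, rfl⟩ := hb
  exact ⟨p * q, FR_mul hp hq, map_mul (Ideal.Quotient.mk (JJ Ω ξ)) p q⟩

lemma FP_one (j : κ) : (1 : PP Ω ξ) ∈ FP Ω ξ j 0 := 
  ⟨1, FR_one j, map_one (Ideal.Quotient.mk (JJ Ω ξ))⟩

lemma tau_FR {j : κ} {n : ℕ} {p : MvPolynomial (κ × Fin 3) k} (hp : p ∈ FR k j n) :
    (tau Ω ξ j p).totalDegree ≤ n := by
  rw [mem_FR] at hp
  rw [p.as_sum, map_sum]
  refine totalDegree_finsetSum_le fun s hs => ?_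
  have h0 : monomial s (coeff s p) = coeff s p • monomial s (1 : k) := by
    rw [smul_monomial, smul_eq_mul, mul_one]
  rw [h0, map_smul]
  refine (totalDegree_smul_le _ _).trans ?_
  have h1 := aeval_monomial_mem (k := k) (fun n (f : MvPolynomial (Fin 3) (BB Ω ξ j)) =>
    f.totalDegree ≤ n) (by simp) (fun m n a b ha hb => (totalDegree_mul _ _).trans (by omega))
    (gens Ω ξ j) (fun p => if p.1 = j then 1 else 0) (fun i => by
      rw [gens]
      split_ifs with h
      · exact (isHomogeneous_X _ _).totalDegree_le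
      · simp) s
  refine le_trans h1 (le_trans (le_of_eq ?_) (hp s hs))
  rw [Finsupp.sum_fintype _ _ (by simp), wt, Fintype.sum_prod_type]
  rw [Finset.sum_eq_single j]
  · simp
  · intro l _ hl
    simp [hl]
  · simp

lemma back_FP {j : κ} {n : ℕ} {f : MvPolynomial (Fin 3) (BB Ω ξ j)} (hf : f.totalDegree ≤ n) :
    back Ω ξ j f ∈ FP Ω ξ j n := by
  rw [f.as_sum, map_sum]
  refine Submodule.sum_mem _ fun s hs => ?_
  have h1 := le_totalDegree hs
  have h2 : back Ω ξ j (monomial s (coeff s f)) = beta Ω ξ j (coeff s f) *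
      aeval (fun m => Ideal.Quotient.mk (JJ Ω ξ) (X (j, m))) (monomial s (1 : k)) := by
    simp [back, eval₂_monomial, aeval_monomial]
  rw [h2]
  have h3 : beta Ω ξ j (coeff s f) ∈ FP Ω ξ j 0 := by
    obtain ⟨q, hq⟩ := Ideal.Quotient.mk_surjective (coeff s f)
    rw [← hq]
    refine ⟨rename (fun p : {i // i ≠ j} × Fin 3 => ((p.1 : κ), p.2)) q, ?_, rfl⟩
    rw [q.as_sum, map_sum]
    refine Submodule.sum_mem _ fun t ht => ?_
    rw [rename_monomial]
    refine monomial_mem_FR ?_ _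
    unfold wt
    rw [Finset.sum_eq_zero]
    intro m _
    rw [Finsupp.mapDomain_of_notMem_range]
    rintro ⟨a, ha⟩
    have := congrArg Prod.fst ha
    simp only at this
    exact a.1.2 this
  have h4 := aeval_monomial_mem (k := k) (fun n (a : PP Ω ξ) => a ∈ FP Ω ξ j n) (FP_one j)
    (fun m n a b ha hb => FP_mul ha hb) (fun m => Ideal.Quotient.mk (JJ Ω ξ) (X (j, m)))
    (fun _ => 1) (fun i => mk_mem_FP (FR_X_self j i)) s
  have h5 := FP_mul h3 h4
  refine FP_mono ?_ h5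
  simp only [mul_one, zero_add]
  exact h1.trans hf

lemma mem_FP_iff {j : κ} {n : ℕ} {a : PP Ω ξ} :
    a ∈ FP Ω ξ j n ↔ dg (map (algebraMap k (BB Ω ξ j)) (Ω j))
      (algebraMap k (BB Ω ξ j) (ξ j)) (toB Ω ξ j a) ≤ n := by
  rw [dg_le_iff]
  constructor
  · rintro ⟨p, hp, rfl⟩
    exact ⟨tau Ω ξ j p, tau_FR hp, rfl⟩
  · rintro ⟨f, hf, hfa⟩
    obtain ⟨p, rfl⟩ := Ideal.Quotient.mk_surjective a
    rw [toB_mk, Ideal.Quotient.mk_eq_mk_iff_sub_mem] at hfa
    have h1 := back_of_mem Ω ξ j hfa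
    rw [map_sub, back_tau, sub_eq_zero] at h1
    rw [← h1]
    exact back_FP hf

/-- The standing hypotheses on the potentials. -/
def IsPot (Ω : MvPolynomial (Fin 3) k) (e : ℕ) : Prop :=
  Ω.IsHomogeneous e ∧ Module.Finite k (MvPolynomial (Fin 3) k ⧸ jacIdeal Ω)

end Model

section Domain

variable {k : Type*} [Field k]

theorem isDomain_PP_aux (n : ℕ) : ∀ (κ : Type) [Fintype κ] [DecidableEq κ]
    (Ω : κ → MvPolynomial (Fin 3) k) (ξ : κ → k) (e : κ → ℕ) (_ : ∀ i, 1 ≤ e i)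
    (_ : ∀ i, IsPot (Ω i) (e i)), Fintype.card κ = n → IsDomain (PP Ω ξ) := by
  induction n with
  | zero =>
    intro κ _ _ Ω ξ e he hΩ hcard
    have : IsEmpty κ := Fintype.card_eq_zero_iff.mp hcard
    have h1 : JJ Ω ξ = ⊥ := by
      rw [JJ, Ideal.span_eq_bot]
      rintro _ ⟨l, _⟩
      exact isEmptyElim l
    have : (JJ Ω ξ).IsPrime := by rw [h1]; exact Ideal.isPrime_bot
    exact Ideal.Quotient.isDomain _
  | succ n ih =>
    intro κ _ _ Ω ξ e he hΩ hcard
    obtain ⟨j⟩ : Nonempty κ := Fintype.card_pos_iff.mp (by omega)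
    have h1 : IsDomain (BB Ω ξ j) := ih {i // i ≠ j} _ _ (fun i => e i) (fun i => he i)
      (fun i => hΩ i) (by simp [Fintype.card_subtype_compl, hcard])
    have h2 : IsDomain (QQ Ω ξ j) := isDomain_quo (he j) ((hΩ j).1.map _)
      (prime_over_domain (he j) (hΩ j).1 (hΩ j).2) _
    exact (toB_injective Ω ξ j).isDomain (toB Ω ξ j).toRingHom

variable {κ : Type} [Fintype κ] [DecidableEq κ] {Ω : κ → MvPolynomial (Fin 3) k} {ξ : κ → k}
  {e : κ → ℕ}

theorem isDomain_PP (he : ∀ i, 1 ≤ e i) (hΩ : ∀ i, IsPot (Ω i) (e i)) : IsDomain (PP Ω ξ) :=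
  isDomain_PP_aux _ κ Ω ξ e he hΩ rfl

/-- The degree functions on the model. -/
theorem exists_deg (he : ∀ i, 1 ≤ e i) (hΩ : ∀ i, IsPot (Ω i) (e i)) (j : κ) :
    ∃ dj : PP Ω ξ → ℕ, (∀ a n, dj a ≤ n ↔ a ∈ FP Ω ξ j n) ∧
      ∀ a b, a ≠ 0 → b ≠ 0 → dj (a * b) = dj a + dj b := by
  have h1 : IsDomain (BB Ω ξ j) := isDomain_PP (e := fun i : {i // i ≠ j} => e i)
    (fun i => he i) (fun i => hΩ i)
  refine ⟨fun a => dg (map (algebraMap k (BB Ω ξ j)) (Ω j))
      (algebraMap k (BB Ω ξ j) (ξ j)) (toB Ω ξ j a), fun a n => mem_FP_iff.symm, ?_⟩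
  intro a b ha hb
  simp only [map_mul]
  have hinj := toB_injective Ω ξ j
  exact (dg_mul (he j) ((hΩ j).1.map _) (prime_over_domain (he j) (hΩ j).1 (hΩ j).2) _
    ((map_ne_zero_iff _ hinj).mpr ha) ((map_ne_zero_iff _ hinj).mpr hb)).2

/-- `1, x, y, z` of one factor are linearly independent. -/
theorem affine_indep (he : ∀ i, 2 ≤ e i) (hΩ : ∀ i, IsPot (Ω i) (e i)) (j : κ)
    {p : MvPolynomial (Fin 3) k} (hp : p.totalDegree < e j)
    (h : Ideal.Quotient.mk (JJ Ω ξ) (inc j p) = 0) : p = 0 := by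
  have h1 : IsDomain (BB Ω ξ j) := isDomain_PP (e := fun i : {i // i ≠ j} => e i)
    (fun i => (by have := he i; omega)) (fun i => hΩ i)
  have h2 := congrArg (toB Ω ξ j) h
  rw [toB_mk, tau_inc_self, map_zero] at h2
  have he1 : 1 ≤ e j := by have := he j; omega
  have h3 := eq_zero_of_mk he1 ((hΩ j).1.map _) (prime_over_domain he1 (hΩ j).1 (hΩ j).2) _
    (lt_of_le_of_lt (Finset.sup_mono (support_map_subset _ _)) hp) h2
  have hinj : Function.Injective (algebraMap k (BB Ω ξ j)) := (algebraMap k _).injective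
  exact (map_eq_zero_iff _ (map_injective _ hinj)).mp h3

end Domain

end K4H17.DX
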