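import Pool.Agent.K4H17.DX.Transport

set_option maxHeartbeats 400000

namespace K4H17.DX

open MvPolynomial

universe u

variable {k : Type u} [Field k]

/-- The gradient of a polynomial in three variables. -/
noncomputable def grad (f : MvPolynomial (Fin 3) k) : Fin 3 → MvPolynomial (Fin 3) k :=
  fun m => pderiv m f

/-- The determinant with rows `∇f`, `∇g`, `∇Ω`: the bracket `{f, g}` of `A_Ω`. -/
noncomputable def detBracket (Ω f g : MvPolynomial (Fin 3) k) : MvPolynomial (Fin 3) k :=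
  Matrix.det (Matrix.of ![grad f, grad g, grad Ω])

/-- The algebra `P_{Ω-ξ} = k[x,y,z]/(Ω - ξ)`. -/
def Factor (Ω : MvPolynomial (Fin 3) k) (ξ : k) : Type u := Fac Ω ξ

noncomputable instance Factor.commRing (Ω : MvPolynomial (Fin 3) k) (ξ : k) :
    CommRing (Factor Ω ξ) := Ideal.Quotient.commRing (Ideal.span {Ω - C ξ})

noncomputable instance Factor.algebra (Ω : MvPolynomial (Fin 3) k) (ξ : k) :
    Algebra k (Factor Ω ξ) :=
  Ideal.Quotient.algebra (R₁ := k) (I := Ideal.span {Ω - C ξ})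

/-- The quotient map `k[x,y,z] → P_{Ω-ξ}`. -/
noncomputable def Factor.mk (Ω : MvPolynomial (Fin 3) k) (ξ : k) (p : MvPolynomial (Fin 3) k) :
    Factor Ω ξ := Ideal.Quotient.mk (Ideal.span {Ω - C ξ}) p

/-- The tensor product over `k` of the algebras `P_{Ω_i - ξ_i}`. -/
def Tensor {κ : Type} (Ω : κ → MvPolynomial (Fin 3) k) (ξ : κ → k) : Type u :=
  PiTensorProduct k fun i => Factor (Ω i) (ξ i)

noncomputable instance Tensor.commRing {κ : Type} (Ω : κ → MvPolynomial (Fin 3) k) (ξ : κ → k) :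
    CommRing (Tensor Ω ξ) := PiTensorProduct.instCommRing

noncomputable instance Tensor.algebra {κ : Type} (Ω : κ → MvPolynomial (Fin 3) k) (ξ : κ → k) :
    Algebra k (Tensor Ω ξ) := PiTensorProduct.instAlgebra

/-- The pure tensor `⊗ a_i`. -/
noncomputable def Tensor.pure {κ : Type} (Ω : κ → MvPolynomial (Fin 3) k) (ξ : κ → k)
    (a : ∀ i, Factor (Ω i) (ξ i)) : Tensor Ω ξ := PiTensorProduct.tprod k a

/-- `B` is the bracket of the tensor product of the Poisson algebras `P_{Ω_i - ξ_i}`: it is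
`k`-bilinear and on pure tensors it is
`{⊗ p_i, ⊗ q_i} = ∑_i (p_1 q_1) ⊗ ... ⊗ {p_i, q_i} ⊗ ... ⊗ (p_d q_d)`. -/
structure IsPoissonTensor {κ : Type} [Fintype κ] [DecidableEq κ]
    (Ω : κ → MvPolynomial (Fin 3) k) (ξ : κ → k) (B : Tensor Ω ξ → Tensor Ω ξ → Tensor Ω ξ) :
    Prop where
  add_left : ∀ a a' b, B (a + a') b = B a b + B a' b
  smul_left : ∀ (c : k) (a b), B (c • a) b = c • B a b
  add_right : ∀ a b b', B a (b + b') = B a b + B a b'
  smul_right : ∀ (c : k) (a b), B a (c • b) = c • B a b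
  pure_pure : ∀ p q : κ → MvPolynomial (Fin 3) k,
    B (Tensor.pure Ω ξ fun i => Factor.mk (Ω i) (ξ i) (p i))
      (Tensor.pure Ω ξ fun i => Factor.mk (Ω i) (ξ i) (q i))
    = ∑ i, Tensor.pure Ω ξ (Function.update (fun l => Factor.mk (Ω l) (ξ l) (p l * q l)) i
        (Factor.mk (Ω i) (ξ i) (detBracket (Ω i) (p i) (q i))))

/-- A commutative `k`-algebra with bracket `B` is Dixmier: every injective algebra endomorphism
preserving the bracket is bijective. -/
def IsDixmier (k : Type u) [Field k] (A : Type u) [CommRing A] [Algebra k A] (B : A → A → A) :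
    Prop :=
  ∀ φ : A →ₐ[k] A, (∀ a b, φ (B a b) = B (φ a) (φ b)) → Function.Injective φ →
    Function.Bijective φ

/-- `Ω` is homogeneous of degree `e` with an isolated singularity. -/
def IsISPotential (Ω : MvPolynomial (Fin 3) k) (e : ℕ) : Prop :=
  Ω.IsHomogeneous e ∧
    Module.Finite k (MvPolynomial (Fin 3) k ⧸ Ideal.span (Set.range (grad Ω)))

section Proof

lemma jac_eq (Ω f g : MvPolynomial (Fin 3) k) : jac Ω f g = detBracket Ω f g := by
  unfold jac detBracket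
  congr 1
  ext i j
  fin_cases i <;> fin_cases j <;> rfl

variable {κ : Type} [Fintype κ] [DecidableEq κ] {Ω : κ → MvPolynomial (Fin 3) k} {ξ : κ → k}

/-- a bracket as a bilinear map -/
noncomputable def toBil {B : Tensor Ω ξ → Tensor Ω ξ → Tensor Ω ξ} (hB : IsPoissonTensor Ω ξ B) :
    TT Ω ξ →ₗ[k] TT Ω ξ →ₗ[k] TT Ω ξ :=
  LinearMap.mk₂ k (B : TT Ω ξ → TT Ω ξ → TT Ω ξ) hB.add_left hB.smul_left hB.add_right
    hB.smul_right

lemma toBil_is {B : Tensor Ω ξ → Tensor Ω ξ → Tensor Ω ξ} (hB : IsPoissonTensor Ω ξ B) :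
    IsTensorBracket Ω ξ (toBil hB) := by
  intro p q
  simp only [jac_eq]
  exact hB.pure_pure p q

lemma brT_is : IsPoissonTensor Ω ξ (fun a b => brT Ω ξ a b) where
  add_left a a' b := LinearMap.map_add₂ (brT Ω ξ) a a' b
  smul_left c a b := LinearMap.map_smul₂ (brT Ω ξ) c a b
  add_right a b b' := map_add (brT Ω ξ a) b b'
  smul_right c a b := map_smul (brT Ω ξ a) c b
  pure_pure p q := by
    have := brT_isTensorBracket Ω ξ p q
    simp only [jac_eq] at this
    exact this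

lemma eq_of_is {B : Tensor Ω ξ → Tensor Ω ξ → Tensor Ω ξ} (hB : IsPoissonTensor Ω ξ B) :
    B = fun a b => brT Ω ξ a b := by
  have h := eq_brT (toBil_is hB)
  funext a b
  exact congrArg (fun f : TT Ω ξ →ₗ[k] TT Ω ξ →ₗ[k] TT Ω ξ => f a b) h

theorem dixmier_TT {e : κ → ℕ} (he : ∀ i, 4 ≤ e i) (hΩ : ∀ i, IsISPotential (Ω i) (e i))
    (φ : TT Ω ξ →ₐ[k] TT Ω ξ) (hφ : ∀ a b, φ (brT Ω ξ a b) = brT Ω ξ (φ a) (φ b))
    (hinj : Function.Injective φ) : Function.Bijective φ := by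
  refine ⟨hinj, ?_⟩
  have hti : Function.Injective (toT Ω ξ) := fun a b h => by
    rw [← fromT_toT Ω ξ a, h, fromT_toT]
  have hfi : Function.Injective (fromT Ω ξ) := fun a b h => by
    rw [← toT_fromT Ω ξ a, h, toT_fromT]
  have hs := dixmier_model (ξ := ξ) he (fun i => ⟨(hΩ i).1, (hΩ i).2⟩)
    ((fromT Ω ξ).comp (φ.comp (toT Ω ξ)))
    (fun a b h => hti (hinj (hfi h))) (fun a b => by
      simp only [AlgHom.comp_apply]
      have h1 := hφ (toT Ω ξ a) (toT Ω ξ b)
      rw [brT_apply, brT_apply, fromT_toT, fromT_toT] at h1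
      rw [h1, fromT_toT])
  intro t
  obtain ⟨a, ha⟩ := hs (fromT Ω ξ t)
  exact ⟨toT Ω ξ a, hfi ha⟩

theorem main_statement {e : κ → ℕ} (he : ∀ i, 4 ≤ e i) (hΩ : ∀ i, IsISPotential (Ω i) (e i)) :
    (∃! B, IsPoissonTensor Ω ξ B) ∧
      ∀ B, IsPoissonTensor Ω ξ B → IsDixmier k (Tensor Ω ξ) B := by
  refine ⟨⟨_, brT_is, fun B hB => eq_of_is hB⟩, fun B hB φ hφ hinj => ?_⟩
  have h := eq_of_is hB
  subst h
  exact dixmier_TT he hΩ φ hφ hinj

end Proof

end K4H17.DX
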