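import Pool.Agent.K4H17.DX.Bracket

set_option maxHeartbeats 400000
set_option linter.unusedSectionVars false

namespace K4H17.DX

open MvPolynomial

section Steps

variable {k : Type*} [Field k] {κ : Type} [Fintype κ] [DecidableEq κ]
  {Ω : κ → MvPolynomial (Fin 3) k} {ξ : κ → k} {e : κ → ℕ}

/-- A degree function for the filtration in direction `j`. -/
structure DegFn (j : κ) (dj : PP Ω ξ → ℕ) : Prop where
  le_iff : ∀ a n, dj a ≤ n ↔ a ∈ FP Ω ξ j n
  mul : ∀ a b, a ≠ 0 → b ≠ 0 → dj (a * b) = dj a + dj b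

lemma DegFn.one {j : κ} {dj : PP Ω ξ → ℕ} (h : DegFn j dj) : dj 1 = 0 :=
  Nat.le_zero.mp ((h.le_iff 1 0).mpr (FP_one j))

lemma DegFn.pow [IsDomain (PP Ω ξ)] {j : κ} {dj : PP Ω ξ → ℕ} (h : DegFn j dj) {a : PP Ω ξ}
    (ha : a ≠ 0) (n : ℕ) : dj (a ^ n) = n * dj a := by
  induction n with
  | zero => simp [h.one]
  | succ n ih => rw [pow_succ, h.mul _ _ (pow_ne_zero n ha) ha, ih, Nat.succ_mul]

lemma DegFn.prod [IsDomain (PP Ω ξ)] {j : κ} {dj : PP Ω ξ → ℕ} (h : DegFn j dj) {ι : Type*}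
    (s : Finset ι) (f : ι → PP Ω ξ) (hf : ∀ i, f i ≠ 0) :
    dj (∏ i ∈ s, f i) = ∑ i ∈ s, dj (f i) := by
  classical
  induction s using Finset.induction_on with
  | empty => simp [h.one]
  | insert a t ha ih =>
    rw [Finset.prod_insert ha, Finset.sum_insert ha,
      h.mul _ _ (hf a) (Finset.prod_ne_zero_iff.mpr fun i _ => hf i), ih]

/-- Step 1. -/
lemma step1 [IsDomain (PP Ω ξ)] {j : κ} {dj : PP Ω ξ → ℕ} (h : DegFn j dj)
    {Ω' : MvPolynomial (Fin 3) k} {e' : ℕ} (hΩ' : IsPot Ω' e') (x : Fin 3 → PP Ω ξ) (c : ℕ)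
    (hc : ∀ m, dj (x m) ≤ c) (hcm : ∃ m, x m ≠ 0 ∧ dj (x m) = c) :
    ∃ m, aeval x (pderiv m Ω') ≠ 0 ∧ (e' - 1) * c ≤ dj (aeval x (pderiv m Ω')) := by
  obtain ⟨N, hN⟩ := exists_hom_repr hΩ'.1 hΩ'.2
  by_contra hcon
  push Not at hcon
  obtain ⟨m0, hm0, hd⟩ := hcm
  obtain ⟨q, hq, hX⟩ := hN m0
  have h1 := congrArg (aeval x) hX
  rw [map_pow, aeval_X, map_sum] at h1
  simp only [map_mul] at h1
  have h2 : x m0 ^ (e' - 1 + N) ≠ 0 := pow_ne_zero _ hm0
  have h3 : dj (x m0 ^ (e' - 1 + N)) = (e' - 1 + N) * c := by rw [h.pow hm0, hd]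
  by_cases h0 : (e' - 1) * c = 0
  · apply h2
    rw [h1]
    refine Finset.sum_eq_zero fun i _ => ?_
    have : aeval x (pderiv i Ω') = 0 := by
      by_contra hne
      have := hcon i hne
      omega
    rw [this, zero_mul]
  · have h4 : ∀ i, aeval x (pderiv i Ω') ∈ FP Ω ξ j ((e' - 1) * c - 1) := by
      intro i
      by_cases hi : aeval x (pderiv i Ω') = 0
      · rw [hi]; exact Submodule.zero_mem _
      · rw [← h.le_iff]
        have := hcon i hi
        omega
    have h5 : x m0 ^ (e' - 1 + N) ∈ FP Ω ξ j ((e' - 1) * c - 1 + N * c) := by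
      rw [h1]
      exact Submodule.sum_mem _ fun i _ =>
        FP_mul (h4 i) (aeval_FP (fun m => (h.le_iff _ _).mp (hc m)) (hq i))
    rw [← h.le_iff, h3, add_mul] at h5
    omega

lemma gx_notMem (he : ∀ i, 2 ≤ e i) (hΩ : ∀ i, IsPot (Ω i) (e i)) (j : κ) (m : Fin 3) :
    gx Ω ξ j m ∉ FP Ω ξ j 0 := by
  have h1 : IsDomain (BB Ω ξ j) := isDomain_PP (e := fun i : {i // i ≠ j} => e i)
    (fun i => (by have := he i; omega)) (fun i => hΩ i)
  intro hmem
  rw [mem_FP_iff, dg_le_iff] at hmem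
  obtain ⟨f, hf, hfa⟩ := hmem
  have h2 : toB Ω ξ j (gx Ω ξ j m) = Ideal.Quotient.mk _ (X m) := by
    rw [gx, toB_mk]
    simp [tau, gens]
  rw [h2, ← sub_eq_zero, ← map_sub] at hfa
  have he1 : 1 ≤ e j := by have := he j; omega
  have hXd : (X m : MvPolynomial (Fin 3) (BB Ω ξ j)).totalDegree = 1 := totalDegree_X m
  have h3 := eq_zero_of_mk he1 ((hΩ j).1.map _) (prime_over_domain he1 (hΩ j).1 (hΩ j).2) _
    (lt_of_le_of_lt (totalDegree_sub _ _) (by rw [hXd]; have := he j; omega)) hfa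
  rw [sub_eq_zero] at h3
  rw [h3, hXd] at hf
  omega

/-- a vector in the plane spanned by two covectors: the auxiliary determinant identity. -/
lemma det_aux {R : Type*} [CommRing R] [IsDomain R] {n : Type*} [Fintype n] [DecidableEq n]
    (w : R) (hw : w ≠ 0) (u v : n → R) (M M' : Matrix n n R)
    (h : ∀ a b, w * M a b = u a * v b - v a * u b + w * M' a b) :
    (Matrix.fromBlocks (w • (1 : Matrix (Fin 2) (Fin 2) R))
      (-(Matrix.of ![fun b => v b, fun b => - u b])) (Matrix.of fun a => ![u a, v a]) M').det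
      = w ^ 2 * M.det := by
  set G : Matrix (Fin 2) n R := Matrix.of ![fun b => v b, fun b => - u b] with hG
  set F : Matrix n (Fin 2) R := Matrix.of fun a => ![u a, v a] with hF
  have hFG : F * G + M' * (w • (1 : Matrix n n R)) = w • M := by
    ext a b
    rw [Matrix.add_apply, Matrix.mul_apply, Fin.sum_univ_two]
    simp only [Matrix.mul_smul, Matrix.mul_one, Matrix.smul_apply, smul_eq_mul, h a b]
    simp [hF, hG]
    ring
  have h1 : (Matrix.fromBlocks (w • (1 : Matrix (Fin 2) (Fin 2) R)) (-G) F M')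
      * (Matrix.fromBlocks 1 G 0 (w • (1 : Matrix n n R)))
      = Matrix.fromBlocks (w • (1 : Matrix (Fin 2) (Fin 2) R)) 0 F (w • M) := by
    rw [Matrix.fromBlocks_multiply]
    congr 1
    · simp
    · simp
    · simp
  have h2 := congrArg Matrix.det h1
  rw [Matrix.det_mul, Matrix.det_fromBlocks_zero₂₁, Matrix.det_fromBlocks_zero₁₂, Matrix.det_one,
    one_mul, Matrix.det_smul, Matrix.det_smul, Matrix.det_smul, Matrix.det_one, Matrix.det_one,
    mul_one, mul_one, Fintype.card_fin] at h2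
  have h3 : w ^ Fintype.card n ≠ 0 := pow_ne_zero _ hw
  have h4 : (Matrix.fromBlocks (w • (1 : Matrix (Fin 2) (Fin 2) R)) (-G) F M').det
      * w ^ Fintype.card n = (w ^ 2 * M.det) * w ^ Fintype.card n := by
    rw [h2]; ring
  exact mul_right_cancel₀ h3 h4

/-- Step 2. -/
lemma step2 [IsDomain (PP Ω ξ)] (he : ∀ i, 3 ≤ e i) (hΩ : ∀ i, IsPot (Ω i) (e i)) {j : κ}
    {dj : PP Ω ξ → ℕ} (h : DegFn j dj) (F : Fin 2 × κ → PP Ω ξ) (kk : κ → ℕ)
    (hF : ∀ a, F a ∈ FP Ω ξ j (kk a.2)) (D : κ → PP Ω ξ) (hD0 : ∀ i, D i ≠ 0)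
    (hD : ∀ i, (e i - 1) * kk i ≤ dj (D i))
    (hM : (Matrix.of fun a b => br Ω ξ (F a) (F b))
      = Matrix.blockDiagonal fun i => !![0, D i; - D i, 0]) :
    ∑ i, (e i - 3) * kk i ≤ e j - 3 := by
  have he2 : ∀ i, 2 ≤ e i := fun i => by have := he i; omega
  -- choice of `w`
  obtain ⟨m1, hw0, hw⟩ := step1 h (hΩ j) (gx Ω ξ j) 1
    (fun m => (h.le_iff _ _).mpr (mk_mem_FP (FR_X_self j m)))
    ⟨0, fun h0 => gx_notMem (ξ := ξ) he2 hΩ j 0 (by rw [h0]; exact Submodule.zero_mem _), by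
      have h1 : dj (gx Ω ξ j 0) ≤ 1 := (h.le_iff _ _).mpr (mk_mem_FP (FR_X_self j 0))
      have h2 : ¬ dj (gx Ω ξ j 0) ≤ 0 := fun h3 => gx_notMem he2 hΩ j 0 ((h.le_iff _ _).mp h3)
      omega⟩
  have hgW : aeval (gx Ω ξ j) (pderiv m1 (Ω j)) = gW Ω ξ j m1 := by
    have : (aeval (gx Ω ξ j) : MvPolynomial (Fin 3) k →ₐ[k] PP Ω ξ)
        = (Ideal.Quotient.mkₐ k (JJ Ω ξ)).comp (inc j) := by
      apply algHom_ext
      intro m
      simp [inc, gx]
    rw [this]; rfl
  rw [hgW] at hw0 hw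
  rw [mul_one] at hw
  set w := gW Ω ξ j m1 with hwdef
  set p := gx Ω ξ j (m1 + 1) with hp
  set q := gx Ω ξ j (m1 + 2) with hq
  have hpq : brl Ω ξ j p q = w := brl_gx_gx Ω ξ j m1
  set u : Fin 2 × κ → PP Ω ξ := fun a => brl Ω ξ j p (F a) with hu
  set v : Fin 2 × κ → PP Ω ξ := fun a => brl Ω ξ j q (F a) with hv
  set M : Matrix (Fin 2 × κ) (Fin 2 × κ) (PP Ω ξ) := Matrix.of fun a b => br Ω ξ (F a) (F b)
    with hMdef
  set M' : Matrix (Fin 2 × κ) (Fin 2 × κ) (PP Ω ξ) := Matrix.of fun a b =>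
    ∑ l ∈ Finset.univ.erase j, brl Ω ξ l (F a) (F b) with hM'
  have hrel : ∀ a b, w * M a b = u a * v b - v a * u b + w * M' a b := by
    intro a b
    have h1 : M a b = brl Ω ξ j (F a) (F b) + M' a b := by
      rw [hMdef, hM', Matrix.of_apply, Matrix.of_apply, br]
      exact (Finset.add_sum_erase _ _ (Finset.mem_univ j)).symm
    have h2 := brl_plucker Ω ξ j p q (F a) (F b)
    rw [hpq] at h2
    rw [h1, mul_add, h2]
  have hdet := det_aux w hw0 u v M M' hrel
  have hdetM : M.det = ∏ i, D i ^ 2 := by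
    rw [hM, Matrix.det_blockDiagonal]
    refine Finset.prod_congr rfl fun i _ => ?_
    rw [Matrix.det_fin_two_of]; ring
  have hN := det_FP (j := j) (Matrix.fromBlocks (w • (1 : Matrix (Fin 2) (Fin 2) (PP Ω ξ)))
      (-(Matrix.of ![fun b => v b, fun b => - u b])) (Matrix.of fun a => ![u a, v a]) M')
      (Sum.elim (fun _ => e j - 2) (fun a => kk a.2)) (Sum.elim (fun _ => e j - 2) (fun a => kk a.2))
      (by
        have hwF : w ∈ FP Ω ξ j (e j - 1) :=
          mk_mem_FP (inc_mem_FR_self (hΩ j).1.pderiv.totalDegree_le)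
        have huF : ∀ a, u a ∈ FP Ω ξ j (kk a.2 + (e j - 2)) := fun a =>
          brl_FP_self (he2 j) (hΩ j).1 _ (hF a)
        have hvF : ∀ a, v a ∈ FP Ω ξ j (kk a.2 + (e j - 2)) := fun a =>
          brl_FP_self (he2 j) (hΩ j).1 _ (hF a)
        rintro (r | r) (s | s)
        · simp only [Matrix.fromBlocks_apply₁₁, Sum.elim_inl, Matrix.smul_apply]
          by_cases hrs : r = s
          · subst hrs
            rw [Matrix.one_apply_eq, smul_eq_mul, mul_one]
            refine FP_mono ?_ hwF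
            have := he j; omega
          · rw [Matrix.one_apply_ne hrs, smul_zero]
            exact Submodule.zero_mem _
        · simp only [Matrix.fromBlocks_apply₁₂, Sum.elim_inl, Sum.elim_inr, Matrix.neg_apply]
          refine neg_mem ?_
          rw [add_comm]
          fin_cases r
          · exact hvF s
          · exact neg_mem (huF s)
        · simp only [Matrix.fromBlocks_apply₂₁, Sum.elim_inl, Sum.elim_inr]
          fin_cases s
          · exact huF r
          · exact hvF r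
        · simp only [Matrix.fromBlocks_apply₂₂, Sum.elim_inr]
          rw [hM', Matrix.of_apply]
          refine Submodule.sum_mem _ fun l hl => ?_
          exact brl_FP_ne (Finset.ne_of_mem_erase hl) (hF r) (hF s))
  rw [hdet, hdetM, ← h.le_iff, h.mul _ _ (pow_ne_zero 2 hw0)
    (Finset.prod_ne_zero_iff.mpr fun i _ => pow_ne_zero 2 (hD0 i)), h.pow hw0,
    h.prod _ _ (fun i => pow_ne_zero 2 (hD0 i))] at hN
  simp only [Fintype.sum_sum_type, Sum.elim_inl, Sum.elim_inr, Finset.sum_const,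
    Finset.card_univ, Fintype.card_fin, smul_eq_mul, Fintype.sum_prod_type] at hN
  have h5 : ∀ i, dj (D i ^ 2) = 2 * dj (D i) := fun i => h.pow (hD0 i) 2
  simp only [h5, ← Finset.mul_sum] at hN
  have h6 : ∑ i, ((e i - 3) * kk i + 2 * kk i) ≤ ∑ i, dj (D i) := by
    refine Finset.sum_le_sum fun i _ => le_trans (le_of_eq ?_) (hD i)
    rw [← add_mul]
    congr 1
    have := he i; omega
  rw [Finset.sum_add_distrib, ← Finset.mul_sum] at h6
  have := he j
  omega

end Steps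

/-- Step 3: the counting argument. -/
lemma step3 {κ : Type} [Fintype κ] [DecidableEq κ] {e : κ → ℕ} (he : ∀ i, 4 ≤ e i)
    (K : κ → κ → ℕ) (h2 : ∀ j, ∑ i, (e i - 3) * K i j ≤ e j - 3) (ha : ∀ i, ∃ j, 0 < K i j) :
    ∃ τ : κ → κ, Function.Bijective τ ∧ ∀ i j, K i j = if j = τ i then 1 else 0 := by
  have h3 : ∀ i, e i - 3 ≤ (e i - 3) * ∑ j, K i j := by
    intro i
    obtain ⟨j, hj⟩ := ha i
    have : 1 ≤ ∑ j, K i j := le_trans hj (Finset.single_le_sum (f := fun j => K i j)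
      (fun _ _ => Nat.zero_le _) (Finset.mem_univ j))
    nlinarith
  have h4 : ∑ i, (e i - 3) * ∑ j, K i j = ∑ j, ∑ i, (e i - 3) * K i j := by
    simp_rw [Finset.mul_sum]
    exact Finset.sum_comm
  have h5 : ∑ i, (e i - 3) ≤ ∑ i, (e i - 3) * ∑ j, K i j := Finset.sum_le_sum fun i _ => h3 i
  have h6 : ∑ j, ∑ i, (e i - 3) * K i j ≤ ∑ j, (e j - 3) := Finset.sum_le_sum fun j _ => h2 j
  have h7 : ∑ i, (e i - 3) = ∑ i, (e i - 3) * ∑ j, K i j := le_antisymm h5 (h4 ▸ h6)
  have h8 : ∑ j, ∑ i, (e i - 3) * K i j = ∑ j, (e j - 3) := by rw [← h4, ← h7]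
  have h9 := (Finset.sum_eq_sum_iff_of_le fun i _ => h3 i).mp h7
  have h10 := (Finset.sum_eq_sum_iff_of_le fun j _ => h2 j).mp h8
  have h11 : ∀ i, ∑ j, K i j = 1 := by
    intro i
    have h12 := h9 i (Finset.mem_univ i)
    have h13 : 0 < e i - 3 := by have := he i; omega
    have h14 : (e i - 3) * 1 = (e i - 3) * ∑ j, K i j := by rw [mul_one]; exact h12
    exact (Nat.eq_of_mul_eq_mul_left h13 h14).symm
  choose τ hτ using ha
  have h15 : ∀ i j, K i j = if j = τ i then 1 else 0 := by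
    intro i j
    have h16 := h11 i
    rw [← Finset.add_sum_erase _ _ (Finset.mem_univ (τ i))] at h16
    have h17 := hτ i
    have h18 : ∑ x ∈ Finset.univ.erase (τ i), K i x = 0 := by omega
    split_ifs with hj
    · subst hj; omega
    · exact (Finset.sum_eq_zero_iff.mp h18) j (Finset.mem_erase.mpr ⟨hj, Finset.mem_univ j⟩)
  refine ⟨τ, ?_, h15⟩
  have hsurj : Function.Surjective τ := by
    intro j
    by_contra hcon
    push Not at hcon
    have h19 := h10 j (Finset.mem_univ j)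
    have h20 : ∑ i, (e i - 3) * K i j = 0 := Finset.sum_eq_zero fun i _ => by
      rw [h15, if_neg (fun h => hcon i h.symm), mul_zero]
    have := he j
    omega
  exact ⟨Finite.injective_iff_surjective.mpr hsurj, hsurj⟩

end K4H17.DX
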