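import Pool.Agent.K4H17.DX.Model

set_option maxHeartbeats 400000
set_option linter.unusedSectionVars false

namespace K4H17.DX

open MvPolynomial PiTensorProduct

open scoped TensorProduct

section Tensor

variable {k : Type*} [Field k] {κ : Type} (Ω : κ → MvPolynomial (Fin 3) k) (ξ : κ → k)

/-- One factor `k[x,y,z]/(Ω - ξ)`. -/
abbrev Fac (Ω : MvPolynomial (Fin 3) k) (ξ : k) : Type _ :=
  MvPolynomial (Fin 3) k ⧸ Ideal.span {Ω - C ξ}

/-- The tensor product of all factors. -/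
abbrev TT : Type _ := ⨂[k] i, Fac (Ω i) (ξ i)

/-- factor into the model -/
noncomputable def incP (l : κ) : Fac (Ω l) (ξ l) →ₐ[k] PP Ω ξ :=
  Ideal.Quotient.liftₐ _ ((Ideal.Quotient.mkₐ k (JJ Ω ξ)).comp (inc l)) fun a ha => by
    rw [AlgHom.comp_apply, Ideal.Quotient.mkₐ_eq_mk, Ideal.Quotient.eq_zero_iff_mem]
    rw [Ideal.mem_span_singleton] at ha
    obtain ⟨g, rfl⟩ := ha
    rw [map_mul, map_sub]
    refine Ideal.mul_mem_right _ _ (Ideal.subset_span ⟨l, ?_⟩)
    simp [inc]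

lemma incP_mk (l : κ) (p : MvPolynomial (Fin 3) k) :
    incP Ω ξ l (Ideal.Quotient.mk _ p) = Ideal.Quotient.mk _ (inc l p) := rfl

variable [Fintype κ]

/-- from the tensor product to the model -/
noncomputable def fromT : TT Ω ξ →ₐ[k] PP Ω ξ :=
  liftAlgHom ((MultilinearMap.mkPiAlgebra k κ (PP Ω ξ)).compLinearMap
    fun i => (incP Ω ξ i).toLinearMap)
    (by simp) (fun x y => by simp [Finset.prod_mul_distrib])

lemma fromT_tprod (a : ∀ i, Fac (Ω i) (ξ i)) :
    fromT Ω ξ (tprod k a) = ∏ i, incP Ω ξ i (a i) := by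
  simp [fromT]

variable [DecidableEq κ]

/-- the map into the tensor product -/
noncomputable def toTpoly : MvPolynomial (κ × Fin 3) k →ₐ[k] TT Ω ξ :=
  aeval fun p => singleAlgHom (R := k) (A := fun i => Fac (Ω i) (ξ i)) p.1
    (Ideal.Quotient.mk _ (X p.2))

lemma toTpoly_inc (l : κ) (p : MvPolynomial (Fin 3) k) :
    toTpoly Ω ξ (inc l p) = singleAlgHom (R := k) (A := fun i => Fac (Ω i) (ξ i)) l
      (Ideal.Quotient.mk _ p) := by
  have : (toTpoly Ω ξ).comp (inc l) = (singleAlgHom (R := k) (A := fun i => Fac (Ω i) (ξ i)) l).comp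
      (Ideal.Quotient.mkₐ k _) := by
    apply MvPolynomial.algHom_ext
    intro m
    simp [toTpoly, inc]
  exact congrArg (fun f => f p) this

/-- from the model to the tensor product -/
noncomputable def toT : PP Ω ξ →ₐ[k] TT Ω ξ :=
  Ideal.Quotient.liftₐ (JJ Ω ξ) (toTpoly Ω ξ) fun a ha => by
    have h1 : JJ Ω ξ ≤ Ideal.comap (toTpoly Ω ξ) ⊥ := by
      rw [JJ, Ideal.span_le]
      rintro _ ⟨l, rfl⟩
      simp only [SetLike.mem_coe, Ideal.mem_comap, Ideal.mem_bot]
      have h2 : inc l (Ω l) - C (ξ l) = inc l (Ω l - C (ξ l)) := by simp [inc]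
      rw [h2, toTpoly_inc, Ideal.Quotient.eq_zero_iff_mem.mpr (Ideal.mem_span_singleton_self _),
        map_zero]
    exact h1 ha

lemma toT_mk (p : MvPolynomial (κ × Fin 3) k) :
    toT Ω ξ (Ideal.Quotient.mk _ p) = toTpoly Ω ξ p := rfl

lemma toT_incP (l : κ) (a : Fac (Ω l) (ξ l)) :
    toT Ω ξ (incP Ω ξ l a) = singleAlgHom (R := k) (A := fun i => Fac (Ω i) (ξ i)) l a := by
  obtain ⟨p, rfl⟩ := Ideal.Quotient.mk_surjective a
  rw [incP_mk, toT_mk, toTpoly_inc]

lemma fromT_single (l : κ) (a : Fac (Ω l) (ξ l)) :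
    fromT Ω ξ (singleAlgHom (R := k) (A := fun i => Fac (Ω i) (ξ i)) l a) = incP Ω ξ l a := by
  rw [singleAlgHom_apply, fromT_tprod, Finset.prod_eq_single l]
  · simp
  · intro i _ hi
    simp [hi]
  · simp

lemma toT_fromT (a : TT Ω ξ) : toT Ω ξ (fromT Ω ξ a) = a := by
  have : (toT Ω ξ).comp (fromT Ω ξ) = AlgHom.id k _ := by
    apply PiTensorProduct.algHom_ext
    intro i
    ext a
    simp only [AlgHom.comp_apply, fromT_single, toT_incP, AlgHom.id_comp]
  exact congrArg (fun f => f a) this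

lemma fromT_toT (a : PP Ω ξ) : fromT Ω ξ (toT Ω ξ a) = a := by
  have : (fromT Ω ξ).comp (toT Ω ξ) = AlgHom.id k _ := by
    apply Ideal.Quotient.algHom_ext
    apply MvPolynomial.algHom_ext
    rintro ⟨l, m⟩
    change fromT Ω ξ (toTpoly Ω ξ (X (l, m))) = Ideal.Quotient.mk _ (X (l, m))
    rw [toTpoly, aeval_X, fromT_single, incP_mk]
    simp [inc]
  exact congrArg (fun f => f a) this

end Tensor

end K4H17.DX
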