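import Pool.Agent.K4H17.DX.Main

set_option maxHeartbeats 400000
set_option linter.unusedSectionVars false

namespace K4H17.DX

open MvPolynomial PiTensorProduct

open scoped TensorProduct

/-- The Jacobian determinant with rows `∇f`, `∇g`, `∇Ω`. -/
noncomputable def jac {k : Type*} [Field k] (Ω f g : MvPolynomial (Fin 3) k) :
    MvPolynomial (Fin 3) k :=
  Matrix.det !![pderiv 0 f, pderiv 1 f, pderiv 2 f;
    pderiv 0 g, pderiv 1 g, pderiv 2 g;
    pderiv 0 Ω, pderiv 1 Ω, pderiv 2 Ω]

section Bil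

variable {k : Type*} [Field k] {κ : Type} (Ω : κ → MvPolynomial (Fin 3) k) (ξ : κ → k)

lemma brl_add_left (l : κ) (a a' b : PP Ω ξ) :
    brl Ω ξ l (a + a') b = brl Ω ξ l a b + brl Ω ξ l a' b := by
  obtain ⟨f, rfl⟩ := Ideal.Quotient.mk_surjective a
  obtain ⟨f', rfl⟩ := Ideal.Quotient.mk_surjective a'
  obtain ⟨g, rfl⟩ := Ideal.Quotient.mk_surjective b
  rw [← map_add, brl_mk, brl_mk, brl_mk, brR_add_left, map_add]

lemma brl_smul_left (l : κ) (c : k) (a b : PP Ω ξ) :
    brl Ω ξ l (c • a) b = c • brl Ω ξ l a b := by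
  obtain ⟨f, rfl⟩ := Ideal.Quotient.mk_surjective a
  obtain ⟨g, rfl⟩ := Ideal.Quotient.mk_surjective b
  have h1 : c • Ideal.Quotient.mk (JJ Ω ξ) f = Ideal.Quotient.mk (JJ Ω ξ) (c • f) := rfl
  rw [h1, brl_mk, brl_mk, brR_smul_left]
  rfl

variable [Fintype κ]

lemma br_add_left (a a' b : PP Ω ξ) : br Ω ξ (a + a') b = br Ω ξ a b + br Ω ξ a' b := by
  unfold br
  rw [← Finset.sum_add_distrib]
  exact Finset.sum_congr rfl fun l _ => brl_add_left Ω ξ l a a' b

lemma br_smul_left (c : k) (a b : PP Ω ξ) : br Ω ξ (c • a) b = c • br Ω ξ a b := by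
  unfold br
  rw [Finset.smul_sum]
  exact Finset.sum_congr rfl fun l _ => brl_smul_left Ω ξ l c a b

lemma br_add_right (a b b' : PP Ω ξ) : br Ω ξ a (b + b') = br Ω ξ a b + br Ω ξ a b' := by
  rw [br_swap, br_add_left, br_swap Ω ξ b, br_swap Ω ξ b']; ring

lemma br_smul_right (c : k) (a b : PP Ω ξ) : br Ω ξ a (c • b) = c • br Ω ξ a b := by
  rw [br_swap, br_smul_left, br_swap Ω ξ b, smul_neg, neg_neg]

variable [DecidableEq κ]

/-- The bracket on the tensor product, transported from the model. -/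
noncomputable def brT : TT Ω ξ →ₗ[k] TT Ω ξ →ₗ[k] TT Ω ξ :=
  LinearMap.mk₂ k (fun a b => toT Ω ξ (br Ω ξ (fromT Ω ξ a) (fromT Ω ξ b)))
    (fun a a' b => by simp only [map_add, br_add_left])
    (fun c a b => by simp only [map_smul, br_smul_left])
    (fun a b b' => by simp only [map_add, br_add_right])
    (fun c a b => by simp only [map_smul, br_smul_right])

lemma brT_apply (a b : TT Ω ξ) :
    brT Ω ξ a b = toT Ω ξ (br Ω ξ (fromT Ω ξ a) (fromT Ω ξ b)) := rfl

lemma brR_inc (l : κ) (p q : MvPolynomial (Fin 3) k) (r r' : MvPolynomial (κ × Fin 3) k)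
    (hr : ∀ m, pderiv (l, m) r = 0) (hr' : ∀ m, pderiv (l, m) r' = 0) :
    brR Ω l (inc l p * r) (inc l q * r') = inc l (jac (Ω l) p q) * (r * r') := by
  unfold brR jac W
  rw [Matrix.det_fin_three]
  simp only [Derivation.leibniz, hr, hr', pderiv_inc_self, smul_eq_mul, mul_zero, zero_add,
    Matrix.of_apply, Matrix.cons_val', Matrix.cons_val_zero, Matrix.cons_val_one,
    Matrix.cons_val_two, Matrix.head_cons, Matrix.tail_cons, Matrix.cons_val_fin_one,
    Matrix.head_fin_const, map_add, map_sub, map_mul, Matrix.cons_val]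
  ring

omit [Fintype κ] in
lemma pderiv_prod_zero (v : κ × Fin 3) (s : Finset κ) (f : κ → MvPolynomial (κ × Fin 3) k)
    (h : ∀ i ∈ s, pderiv v (f i) = 0) : pderiv v (∏ i ∈ s, f i) = 0 := by
  induction s using Finset.induction_on with
  | empty => simp
  | insert a t ha ih =>
    rw [Finset.prod_insert ha, Derivation.leibniz, h a (Finset.mem_insert_self a t),
      ih fun i hi => h i (Finset.mem_insert_of_mem hi), smul_zero, smul_zero, add_zero]

end Bil

section Statement

variable {k : Type*} [Field k] {κ : Type} [Fintype κ] [DecidableEq κ]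

/-- The defining formula of the bracket of a tensor product, on pure tensors. -/
def IsTensorBracket (Ω : κ → MvPolynomial (Fin 3) k) (ξ : κ → k)
    (B : TT Ω ξ →ₗ[k] TT Ω ξ →ₗ[k] TT Ω ξ) : Prop :=
  ∀ p q : κ → MvPolynomial (Fin 3) k,
    B (tprod k fun i => (Ideal.Quotient.mk _ (p i) : Fac (Ω i) (ξ i)))
      (tprod k fun i => (Ideal.Quotient.mk _ (q i) : Fac (Ω i) (ξ i)))
      = ∑ i, tprod k (Function.update
          (fun l => (Ideal.Quotient.mk _ (p l * q l) : Fac (Ω l) (ξ l)))
          i (Ideal.Quotient.mk _ (jac (Ω i) (p i) (q i))))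

lemma brT_isTensorBracket (Ω : κ → MvPolynomial (Fin 3) k) (ξ : κ → k) :
    IsTensorBracket Ω ξ (brT Ω ξ) := by
  intro p q
  rw [brT_apply, fromT_tprod, fromT_tprod, br, map_sum]
  refine Finset.sum_congr rfl fun l _ => ?_
  have hinj : Function.Injective (fromT Ω ξ) := fun a b h => by
    rw [← toT_fromT Ω ξ a, h, toT_fromT]
  apply hinj
  rw [fromT_toT, fromT_tprod]
  simp only [incP_mk]
  rw [← map_prod, ← map_prod, brl_mk, ← Finset.mul_prod_erase _ _ (Finset.mem_univ l),
    ← Finset.mul_prod_erase _ (fun i => inc i (q i)) (Finset.mem_univ l), brR_inc]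
  · rw [← Finset.mul_prod_erase _ _ (Finset.mem_univ l), Function.update_self, incP_mk,
      ← Finset.prod_mul_distrib, map_mul, map_prod]
    congr 1
    refine Finset.prod_congr rfl fun i hi => ?_
    rw [Function.update_of_ne (Finset.ne_of_mem_erase hi), incP_mk, map_mul (inc i), map_mul]
  · intro m
    exact pderiv_prod_zero _ _ _ fun i hi => pderiv_inc_ne (Finset.ne_of_mem_erase hi).symm _ _
  · intro m
    exact pderiv_prod_zero _ _ _ fun i hi => pderiv_inc_ne (Finset.ne_of_mem_erase hi).symm _ _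

lemma eq_brT {Ω : κ → MvPolynomial (Fin 3) k} {ξ : κ → k}
    {B : TT Ω ξ →ₗ[k] TT Ω ξ →ₗ[k] TT Ω ξ} (hB : IsTensorBracket Ω ξ B) : B = brT Ω ξ := by
  apply PiTensorProduct.ext
  ext a
  simp only [LinearMap.compMultilinearMap_apply]
  suffices h : B (tprod k a) = brT Ω ξ (tprod k a) by rw [h]
  apply PiTensorProduct.ext
  ext b
  simp only [LinearMap.compMultilinearMap_apply]
  choose p hp using fun i => Ideal.Quotient.mk_surjective (a i)
  choose q hq using fun i => Ideal.Quotient.mk_surjective (b i)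
  have ha : a = fun i => (Ideal.Quotient.mk _ (p i) : Fac (Ω i) (ξ i)) :=
    funext fun i => (hp i).symm
  have hb : b = fun i => (Ideal.Quotient.mk _ (q i) : Fac (Ω i) (ξ i)) :=
    funext fun i => (hq i).symm
  rw [ha, hb, hB, brT_isTensorBracket]

end Statement

end K4H17.DX
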